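import Pool.Agent.Hhelper20.CS.Lin

/-!
# Equality in the comparison of Euler characteristics

The hypotheses are those of `chi_le` (`Hhelper20/CS/Lin.lean`; its proof is to be copied) with `hsurj` replaced by the stronger `hs0`, `hs1`.  As in `chi_le`, `h0 M ≤ h0 N`
(injection `M0 ⊓ M1 → N0 ⊓ N1`) and `h1 N ≤ h1 M` (surjection `ψ` of finite dimensional spaces).  By `hchi` both are equalities, so the first map is onto and `ψ` is injective.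

Let `n0 ∈ N0`.  By `hs1` (`N0 ≤ N01`), `n0 = pr m + n1` with `m ∈ M01`, `n1 ∈ N1`, so `pr m ∈ N0 ⊔ N1`, and since `ψ` is injective, `m = m0 + m1`, `m0 ∈ M0`, `m1 ∈ M1`.  So
`n0 - pr m0 = n1 + pr m1 ∈ N0 ⊓ N1` is the image of an element of `M0 ⊓ M1`.  The other half is symmetric (`hs0`).
-/

namespace Pool.Agent.CSG

open Pool.Agent.Hhelper20.CS

theorem chi_eq {W W' : Type} [AddCommGroup W] [Module ℂ W] [AddCommGroup W'] [Module ℂ W']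
    (pr : W' →ₗ[ℂ] W) (S M0 M1 M01 : Submodule ℂ W') (N0 N1 N01 : Submodule ℂ W)
    (hpr : ∀ z ∈ S, pr z = 0 → z = 0) (hM0 : M0 ≤ S) (hM1 : M1 ≤ S) (hM01 : M01 ≤ S)
    (h0' : M0.map pr ≤ N0) (h1' : M1.map pr ≤ N1) (h01' : M01.map pr ≤ N01)
    (hN0 : N0 ≤ N01) (hN1 : N1 ≤ N01)
    (hs0 : N01 ≤ M01.map pr ⊔ N0) (hs1 : N01 ≤ M01.map pr ⊔ N1)
    (hfin0 : Module.Finite ℂ ↥(N0 ⊓ N1))
    (T : Submodule ℂ W) (hT : Module.Finite ℂ T) (hfin : N01 ≤ T ⊔ (M0.map pr ⊔ M1.map pr))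
    (hchi : chi N0 N1 N01 ≤ chi M0 M1 M01) : N0 ≤ M0.map pr ∧ N1 ≤ M1.map pr := by
  sorry

end Pool.Agent.CSG
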