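import Mathlib

/-!
# The combinatorial lemma

`ν c b i` is the coefficient of `x ^ i y` in the entry `(c, b)` of a matrix.

* Lower bound of the support: `ν c b i = 0` for `i < -(b + 1) a` (`-m < i`): induction on `b`; `b = 0`: `first` with `i + a`; the step: `chain` with `i + a`.
* Upper bound: `ν c b i = 0` for `i > (n - b) a - m` (`i < 0`): downward induction from `b = n - 1` (`last`); the step: `chain` at `i`.
* The intervals `[-(c + 1) a, (n - c) a - m]` are disjoint for different `c` (`n a < m`), so `tr` gives `ν c c i = 0`.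
* If `ν c b i ≠ 0`, then for `b + 1 < n`: `a - m < i` (otherwise `-(b + 1) a ≤ a - m`, `m ≤ (b + 2) a ≤ n a`), so `ν c (b + 1) (i - a) ≠ 0`; for `1 ≤ b`:
  `i + a < 0` (`i ≤ (n - b) a - m < - b a`), so `ν c (b - 1) (i + a) ≠ 0`.  So one reaches the diagonal.
-/

namespace Pool.Agent.CSG

theorem comb {n : ℕ} {a m : ℤ} (ha : 0 < a) (hm : n * a < m) (ν : ℕ → ℕ → ℤ → ℂ)
    (first : ∀ c < n, ∀ i, a - m < i → i < 0 → ν c 0 (i - a) = 0)
    (chain : ∀ c < n, ∀ b, b + 1 < n → ∀ i, a - m < i → i < 0 →
      ν c b i + ν c (b + 1) (i - a) = 0)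
    (last : ∀ c < n, ∀ i, a - m < i → i < 0 → ν c (n - 1) i = 0)
    (tr : ∀ i, -m < i → i < 0 → ∑ c ∈ Finset.range n, ν c c i = 0) :
    ∀ c < n, ∀ b < n, ∀ i, -m < i → i < 0 → ν c b i = 0 := by
  have hmul : ∀ {p q : ℤ}, p ≤ q → p * a ≤ q * a := fun h =>
    mul_le_mul_of_nonneg_right h ha.le
  -- the lower bound
  have low : ∀ c < n, ∀ b : ℕ, b < n → ∀ i : ℤ, -m < i → i < -(((b : ℤ) + 1) * a) → i < 0 →
      ν c b i = 0 := by
    intro c hc b
    induction b with
    | zero =>
      intro _ i h1 h2 _
      have h3 := first c hc (i + a) (by linarith) (by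
        have : ((0 : ℕ) : ℤ) = 0 := rfl
        rw [this] at h2
        linarith)
      rwa [add_sub_cancel_right] at h3
    | succ b ih =>
      intro hb i h1 h2 _
      have h4 : (((b + 1 : ℕ) : ℤ) + 1) * a = ((b : ℤ) + 1) * a + a := by
        push_cast
        ring
      rw [h4] at h2
      have h5 : (0 : ℤ) ≤ ((b : ℤ) + 1) * a := by positivity
      have h6 := chain c hc b hb (i + a) (by linarith) (by linarith)
      rw [add_sub_cancel_right] at h6
      have h7 := ih (by omega) (i + a) (by linarith) (by linarith) (by linarith)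
      rwa [h7, zero_add] at h6
  -- the upper bound
  have up : ∀ c < n, ∀ d : ℕ, d < n → ∀ i : ℤ, ((d : ℤ) + 1) * a - m < i → i < 0 →
      ν c (n - 1 - d) i = 0 := by
    intro c hc d
    induction d with
    | zero =>
      intro _ i h1 h2
      have h3 := last c hc i (by
        have : ((0 : ℕ) : ℤ) = 0 := rfl
        rw [this] at h1
        linarith) h2
      rwa [Nat.sub_zero]
    | succ d ih =>
      intro hd i h1 h2
      have h4 : (((d + 1 : ℕ) : ℤ) + 1) * a = ((d : ℤ) + 1) * a + a := by
        push_cast
        ring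
      rw [h4] at h1
      have h5 : (0 : ℤ) ≤ ((d : ℤ) + 1) * a := by positivity
      have h6 := chain c hc (n - 1 - (d + 1)) (by omega) i (by linarith) h2
      have h7 : n - 1 - (d + 1) + 1 = n - 1 - d := by omega
      rw [h7] at h6
      have h8 := ih (by omega) (i - a) (by linarith) (by linarith)
      rwa [h8, add_zero] at h6
  have up' : ∀ c < n, ∀ b : ℕ, b < n → ∀ i : ℤ, ((n : ℤ) - b) * a - m < i → i < 0 →
      ν c b i = 0 := by
    intro c hc b hb i h1 h2
    have h3 := up c hc (n - 1 - b) (by omega) i (by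
      have h4 : (((n - 1 - b : ℕ) : ℤ) + 1) = (n : ℤ) - b := by omega
      rwa [h4]) h2
    have h5 : n - 1 - (n - 1 - b) = b := by omega
    rwa [h5] at h3
  -- the diagonal
  have diag : ∀ c < n, ∀ i : ℤ, -m < i → i < 0 → ν c c i = 0 := by
    intro c hc i h1 h2
    by_cases hlo : i < -(((c : ℤ) + 1) * a)
    · exact low c hc c hc i h1 hlo h2
    by_cases hup : ((n : ℤ) - c) * a - m < i
    · exact up' c hc c hc i hup h2
    push Not at hlo hup
    have h3 := tr i h1 h2
    rw [Finset.sum_eq_single c] at h3
    · exact h3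
    · intro d hd hdc
      rw [Finset.mem_range] at hd
      rcases lt_or_gt_of_ne hdc with h | h
      · -- `d < c`
        refine low d hd d hd i h1 ?_ h2
        have h4 : ((n : ℤ) - c) * a + ((d : ℤ) + 1) * a ≤ n * a := by
          rw [← add_mul]
          exact hmul (by omega)
        linarith
      · refine up' d hd d hd i ?_ h2
        have h4 : ((n : ℤ) - d) * a + ((c : ℤ) + 1) * a ≤ n * a := by
          rw [← add_mul]
          exact hmul (by omega)
        linarith
    · intro h
      exact absurd (Finset.mem_range.2 hc) h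
  -- below the diagonal
  have below : ∀ c < n, ∀ d : ℕ, ∀ b : ℕ, b + d = c → ∀ i : ℤ, -m < i → i < 0 →
      ν c b i = 0 := by
    intro c hc d
    induction d with
    | zero =>
      intro b hb i h1 h2
      have h3 : b = c := by omega
      subst h3
      exact diag b hc i h1 h2
    | succ d ih =>
      intro b hb i h1 h2
      by_cases hlo : i < -(((b : ℤ) + 1) * a)
      · exact low c hc b (by omega) i h1 hlo h2
      push Not at hlo
      have h3 : ((b : ℤ) + 1) * a + a ≤ n * a := by
        have h4 : ((b : ℤ) + 1) * a + a = ((b : ℤ) + 2) * a := by ring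
        rw [h4]
        exact hmul (by omega)
      have h5 := chain c hc b (by omega) i (by linarith) h2
      have h6 := ih (b + 1) (by omega) (i - a) (by linarith) (by linarith)
      rwa [h6, add_zero] at h5
  have above : ∀ c < n, ∀ d : ℕ, ∀ b : ℕ, c + d = b → b < n → ∀ i : ℤ, -m < i → i < 0 →
      ν c b i = 0 := by
    intro c hc d
    induction d with
    | zero =>
      intro b hb _ i h1 h2
      have h3 : b = c := by omega
      subst h3
      exact diag b hc i h1 h2
    | succ d ih =>
      intro b hb hbn i h1 h2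
      obtain ⟨b, rfl⟩ : ∃ e, b = e + 1 := ⟨b - 1, by omega⟩
      by_cases hup : ((n : ℤ) - ((b + 1 : ℕ) : ℤ)) * a - m < i
      · exact up' c hc (b + 1) hbn i hup h2
      push Not at hup
      have h3 : ((n : ℤ) - ((b + 1 : ℕ) : ℤ)) * a + a ≤ n * a := by
        have h4 : ((n : ℤ) - ((b + 1 : ℕ) : ℤ)) * a + a = ((n : ℤ) - b) * a := by
          push_cast
          ring
        rw [h4]
        exact hmul (by omega)
      have h5 := chain c hc b hbn (i + a) (by linarith) (by linarith)
      rw [add_sub_cancel_right] at h5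
      have h6 := ih b (by omega) (by omega) (i + a) (by linarith) (by linarith)
      rwa [h6, zero_add] at h5
  intro c hc b hb i h1 h2
  rcases le_total b c with h | h
  · exact below c hc (c - b) b (by omega) i h1 h2
  · exact above c hc (b - c) b (by omega) hb i h1 h2

end Pool.Agent.CSG
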