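import Pool.Agent.CSG.Lin

/-!
# The space of sections

`dat n k a` is spanned by `v_0, …, v_n`, `v_j = e_{j-1} + x ^ a e_j` (`e_{-1} = e_n = 0`), and, for `n < j < k`, by the sections with component
`x ^ (1 + (j - n - 1) n + b)` at `b`; these exponents are distinct and lie strictly between `0` and `a`.

`dat_bnd`: a combination `u = ∑ γ_j v_j` has `u b 0 = γ (b + 1)`, `u b a = γ b`, and for `i = 1 + q n + b₀` (`q < k - n - 1`, `b₀ < n`) the coefficient vector
of `x ^ i` is `γ (n + 1 + q) • e_{b₀}`.  So the `v_j` are linearly independent.  Let all coefficient vectors of the `u ∈ W ≤ V` lie in `T ≠ ⊤`.  Then `γ_j = 0` for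
`j > n` (otherwise all `e_b` are in `T`), and `γ' = (γ_1, …, γ_n)`, `γ'' = (γ_0, …, γ_{n-1})` are in `T`.  The map `W → T`, `u ↦ γ'` has a kernel of dimension at most `1`.  If
`finrank W > finrank T`, then this map is onto `T` and the kernel is not `0`, so `v_0 ∈ W` and `e_0 ∈ T` (`γ''`).  By induction `e_i ∈ T` for all `i`: if `e_i ∈ T`,
`i + 1 < n`, then there is `u ∈ W` with `γ' = e_i`, so `γ'' = γ_0 e_0 + e_{i+1} ∈ T`.  So `T = ⊤`.
-/

namespace Pool.Agent.CSG

/-- The coefficients of the sections. -/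
def dat (n k a : ℕ) : Co ℂ k n a := fun j b i =>
  if j.1 ≤ n then (if i.1 = 0 ∧ j.1 = b.1 + 1 then 1 else 0) + (if i.1 = a ∧ j.1 = b.1 then 1 else 0)
  else if i.1 = 1 + (j.1 - n - 1) * n + b.1 then 1 else 0

/-- The exponents of the last sections are smaller than `a`. -/
theorem dat_exp_lt {n k a q b : ℕ} (ha : (k - n - 1) * n + 1 ≤ a) (hq : n + 1 + q < k)
    (hb : b < n) : 1 + q * n + b < a := by
  have h1 : q + 1 ≤ k - n - 1 := by omega
  have h2 : (q + 1) * n ≤ (k - n - 1) * n := Nat.mul_le_mul_right n h1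
  have h3 : (q + 1) * n = q * n + n := by ring
  omega

theorem dat_zero {n k a : ℕ} (ha : (k - n - 1) * n + 1 ≤ a) (j : Fin k) (b : Fin n) :
    dat n k a j b 0 = if j.1 = b.1 + 1 then 1 else 0 := by
  have hb := b.2
  have ha0 : 0 ≠ a := by omega
  unfold dat
  by_cases hj : j.1 ≤ n
  · simp [hj, ha0]
  · have h1 : ¬ (j.1 = b.1 + 1) := by omega
    have h2 : ¬ (0 = 1 + (j.1 - n - 1) * n + b.1) := by omega
    simp [hj, h1, h2]

theorem dat_last {n k a : ℕ} (ha : (k - n - 1) * n + 1 ≤ a) (j : Fin k) (b : Fin n) :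
    dat n k a j b (Fin.last a) = if j.1 = b.1 then 1 else 0 := by
  have hb := b.2
  have ha0 : a ≠ 0 := by omega
  unfold dat
  by_cases hj : j.1 ≤ n
  · simp [hj, ha0]
  · have h1 : ¬ (j.1 = b.1) := by omega
    have h2 : ¬ (a = 1 + (j.1 - n - 1) * n + b.1) := by
      have := dat_exp_lt (q := j.1 - n - 1) ha (by omega) hb
      omega
    simp [hj, h1, h2]

theorem dat_mid {n k a : ℕ} (ha : (k - n - 1) * n + 1 ≤ a) {q : ℕ} (hq : n + 1 + q < k)
    (b₀ : Fin n) (hlt : 1 + q * n + b₀.1 < a + 1) (j : Fin k) (b : Fin n) :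
    dat n k a j b ⟨1 + q * n + b₀.1, hlt⟩ = if j.1 = n + 1 + q ∧ b = b₀ then 1 else 0 := by
  have hb := b.2
  have hb0 := b₀.2
  have hl := dat_exp_lt ha hq hb0
  unfold dat
  by_cases hj : j.1 ≤ n
  · have h1 : ¬ (j.1 = n + 1 + q ∧ b = b₀) := by omega
    have h2 : ¬ (1 + q * n + b₀.1 = a ∧ j.1 = b.1) := by omega
    have h3 : ¬ (1 + q * n + b₀.1 = 0 ∧ j.1 = b.1 + 1) := by omega
    simp only [hj, if_true, h1, h2, h3, if_false, add_zero]
  · simp only [hj, if_false]
    congr 1
    refine propext ⟨fun h => ?_, fun h => ?_⟩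
    · have h4 : b₀.1 + q * n = b.1 + (j.1 - n - 1) * n := by omega
      have h5 : (b₀.1 + q * n) % n = (b.1 + (j.1 - n - 1) * n) % n := by rw [h4]
      rw [Nat.add_mul_mod_self_right, Nat.add_mul_mod_self_right, Nat.mod_eq_of_lt hb0,
        Nat.mod_eq_of_lt hb] at h5
      have h6 : q * n = (j.1 - n - 1) * n := by omega
      have h7 : q = j.1 - n - 1 := Nat.eq_of_mul_eq_mul_right (by omega) h6
      exact ⟨by omega, Fin.ext h5.symm⟩
    · obtain ⟨h4, rfl⟩ := h
      have h5 : j.1 - n - 1 = q := by omega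
      rw [h5]

theorem dat_sum_zero {n k a : ℕ} (hk : n < k) (ha : (k - n - 1) * n + 1 ≤ a) (γ : Fin k → ℂ)
    (b : Fin n) : (∑ j, γ j • dat n k a j) b 0 = γ ⟨b.1 + 1, by omega⟩ := by
  simp only [Finset.sum_apply, Pi.smul_apply, smul_eq_mul, dat_zero ha]
  rw [Finset.sum_eq_single (⟨b.1 + 1, by omega⟩ : Fin k)]
  · simp
  · intro j _ hj
    have : ¬ (j.1 = b.1 + 1) := fun h => hj (Fin.ext h)
    simp [this]
  · intro h
    exact absurd (Finset.mem_univ _) h

theorem dat_sum_last {n k a : ℕ} (hk : n < k) (ha : (k - n - 1) * n + 1 ≤ a) (γ : Fin k → ℂ)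
    (b : Fin n) : (∑ j, γ j • dat n k a j) b (Fin.last a) = γ ⟨b.1, by omega⟩ := by
  simp only [Finset.sum_apply, Pi.smul_apply, smul_eq_mul, dat_last ha]
  rw [Finset.sum_eq_single (⟨b.1, by omega⟩ : Fin k)]
  · simp
  · intro j _ hj
    have : ¬ (j.1 = b.1) := fun h => hj (Fin.ext h)
    simp [this]
  · intro h
    exact absurd (Finset.mem_univ _) h

theorem dat_sum_mid {n k a : ℕ} (ha : (k - n - 1) * n + 1 ≤ a) {q : ℕ} (hq : n + 1 + q < k)
    (b₀ : Fin n) (hlt : 1 + q * n + b₀.1 < a + 1) (γ : Fin k → ℂ) (b : Fin n) :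
    (∑ j, γ j • dat n k a j) b ⟨1 + q * n + b₀.1, hlt⟩ =
      if b = b₀ then γ ⟨n + 1 + q, hq⟩ else 0 := by
  simp only [Finset.sum_apply, Pi.smul_apply, smul_eq_mul, dat_mid ha hq b₀ hlt]
  rw [Finset.sum_eq_single (⟨n + 1 + q, hq⟩ : Fin k)]
  · by_cases hb : b = b₀
    · simp [hb]
    · simp [hb]
  · intro j _ hj
    have : ¬ (j.1 = n + 1 + q) := fun h => hj (Fin.ext h)
    simp [this]
  · intro h
    exact absurd (Finset.mem_univ _) h

theorem dat_indep {n k a : ℕ} (hn : 1 ≤ n) (hk : n < k) (ha : (k - n - 1) * n + 1 ≤ a) :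
    LinearIndependent ℂ (dat n k a) := by
  rw [Fintype.linearIndependent_iff]
  intro γ hγ j
  rcases Nat.eq_zero_or_pos j.1 with h0 | h0
  · have h1 := dat_sum_last hk ha γ ⟨0, by omega⟩
    rw [hγ] at h1
    have h2 : (⟨(⟨0, by omega⟩ : Fin n).1, by omega⟩ : Fin k) = j := Fin.ext h0.symm
    rw [h2] at h1
    exact h1.symm
  · by_cases hj : j.1 ≤ n
    · have h1 := dat_sum_zero hk ha γ ⟨j.1 - 1, by omega⟩
      rw [hγ] at h1
      have h2 : (⟨(⟨j.1 - 1, by omega⟩ : Fin n).1 + 1, by simp only; omega⟩ : Fin k) = j :=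
        Fin.ext (by simp only; omega)
      rw [h2] at h1
      exact h1.symm
    · have hq : n + 1 + (j.1 - n - 1) < k := by have := j.2; omega
      have hlt := dat_exp_lt (b := 0) ha hq (by omega)
      have h1 := dat_sum_mid ha hq ⟨0, by omega⟩ (by simp only; omega) γ ⟨0, by omega⟩
      rw [hγ] at h1
      have h2 : (⟨n + 1 + (j.1 - n - 1), hq⟩ : Fin k) = j := Fin.ext (by simp only; omega)
      rw [h2] at h1
      simpa using h1.symm

theorem dat_bnd {n k a : ℕ} (hn : 1 ≤ n) (hk : n < k) (ha : (k - n - 1) * n + 1 ≤ a) :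
    Bnd (dat n k a) := by
  refine ⟨dat_indep hn hk ha, fun T W hT hW hWT => ?_⟩
  by_contra hlt
  rw [not_le] at hlt
  -- coefficients
  have hex : ∀ u ∈ W, ∃ γ : Fin k → ℂ, ∑ j, γ j • dat n k a j = u := fun u hu =>
    (Submodule.mem_span_range_iff_exists_fun ℂ).mp (hW hu)
  -- the last coefficients vanish
  have hvan : ∀ γ : Fin k → ℂ, (∑ j, γ j • dat n k a j) ∈ W → ∀ j : Fin k, n < j.1 → γ j = 0 := by
    intro γ hγ j hj
    by_contra hne
    refine hT (Submodule.eq_top_iff'.mpr fun t => ?_)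
    have hq : n + 1 + (j.1 - n - 1) < k := by have := j.2; omega
    have hj2 : (⟨n + 1 + (j.1 - n - 1), hq⟩ : Fin k) = j := Fin.ext (by simp only; omega)
    have h1 : ∀ b₀ : Fin n, Pi.single b₀ (1 : ℂ) ∈ T := by
      intro b₀
      have hlt := dat_exp_lt ha hq b₀.2
      have h2 := hWT _ hγ ⟨1 + (j.1 - n - 1) * n + b₀.1, by omega⟩
      have h3 : (fun b => (∑ j, γ j • dat n k a j) b
          ⟨1 + (j.1 - n - 1) * n + b₀.1, by omega⟩) = γ j • Pi.single b₀ (1 : ℂ) := by
        funext b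
        rw [dat_sum_mid ha hq b₀ (by omega) γ b, hj2]
        by_cases hb : b = b₀
        · subst hb
          simp
        · simp [hb]
      rw [h3] at h2
      have h4 := T.smul_mem (γ j)⁻¹ h2
      rwa [smul_smul, inv_mul_cancel₀ hne, one_smul] at h4
    have h5 : t = ∑ b₀, t b₀ • Pi.single b₀ (1 : ℂ) := by
      funext b
      simp [Finset.sum_apply, Pi.single_apply]
    rw [h5]
    exact Submodule.sum_mem _ fun b₀ _ => T.smul_mem _ (h1 b₀)
  -- the map
  let L : W →ₗ[ℂ] T :=
    { toFun := fun u => ⟨fun b => u.1 b 0, hWT u.1 u.2 0⟩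
      map_add' := fun u v => rfl
      map_smul' := fun r u => rfl }
  let M : LinearMap.ker L →ₗ[ℂ] ℂ :=
    { toFun := fun u => u.1.1 ⟨0, by omega⟩ (Fin.last a)
      map_add' := fun u v => rfl
      map_smul' := fun r u => rfl }
  have hker : ∀ u : W, L u = 0 → ∀ γ : Fin k → ℂ, ∑ j, γ j • dat n k a j = u.1 →
      ∀ j : Fin k, 0 < j.1 → γ j = 0 := by
    intro u hu γ hγ j hj
    by_cases hjn : j.1 ≤ n
    · have h1 : u.1 ⟨j.1 - 1, by omega⟩ 0 = 0 := congrFun (congrArg Subtype.val hu) _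
      rw [← hγ, dat_sum_zero hk ha γ ⟨j.1 - 1, by omega⟩] at h1
      have h2 : (⟨(⟨j.1 - 1, by omega⟩ : Fin n).1 + 1, by simp only; omega⟩ : Fin k) = j :=
        Fin.ext (by simp only; omega)
      rw [h2] at h1
      exact h1
    · exact hvan γ (by rw [hγ]; exact u.2) j (by omega)
  have hMinj : Function.Injective M := by
    intro u v huv
    obtain ⟨γ, hγ⟩ := hex u.1.1 u.1.2
    obtain ⟨δ, hδ⟩ := hex v.1.1 v.1.2
    have h0 : γ ⟨0, by omega⟩ = δ ⟨0, by omega⟩ := by
      have h1 : u.1.1 ⟨0, by omega⟩ (Fin.last a) = v.1.1 ⟨0, by omega⟩ (Fin.last a) := huv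
      rw [← hγ, ← hδ, dat_sum_last hk ha γ ⟨0, by omega⟩, dat_sum_last hk ha δ ⟨0, by omega⟩] at h1
      exact h1
    have hall : γ = δ := by
      funext j
      rcases Nat.eq_zero_or_pos j.1 with h | h
      · have : j = ⟨0, by omega⟩ := Fin.ext h
        rw [this]
        exact h0
      · rw [hker u.1 (LinearMap.mem_ker.mp u.2) γ hγ j h,
          hker v.1 (LinearMap.mem_ker.mp v.2) δ hδ j h]
    have h2 : u.1.1 = v.1.1 := by
      rw [← hγ, ← hδ, hall]
    exact Subtype.ext (Subtype.ext h2)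
  have hk1 : Module.finrank ℂ (LinearMap.ker L) ≤ 1 := by
    have := LinearMap.finrank_le_finrank_of_injective hMinj
    simpa using this
  have hrn := LinearMap.finrank_range_add_finrank_ker L
  have hr1 : Module.finrank ℂ (LinearMap.range L) ≤ Module.finrank ℂ T := Submodule.finrank_le _
  have hkpos : 0 < Module.finrank ℂ (LinearMap.ker L) := by omega
  have hrange : LinearMap.range L = ⊤ := Submodule.eq_top_of_finrank_eq (by omega)
  -- the first unit vector
  have he0 : Pi.single (⟨0, by omega⟩ : Fin n) (1 : ℂ) ∈ T := by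
    have : Nontrivial (LinearMap.ker L) := Module.finrank_pos_iff.mp hkpos
    obtain ⟨u, hu⟩ := exists_ne (0 : LinearMap.ker L)
    obtain ⟨γ, hγ⟩ := hex u.1.1 u.1.2
    have hg := hker u.1 (LinearMap.mem_ker.mp u.2) γ hγ
    have hne : γ ⟨0, by omega⟩ ≠ 0 := by
      intro h0
      apply hu
      apply hMinj
      change u.1.1 ⟨0, by omega⟩ (Fin.last a) = 0
      rw [← hγ, dat_sum_last hk ha γ ⟨0, by omega⟩]
      exact h0
    have h2 := hWT _ u.1.2 (Fin.last a)
    have h3 : (fun b => u.1.1 b (Fin.last a)) =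
        γ ⟨0, by omega⟩ • Pi.single (⟨0, by omega⟩ : Fin n) (1 : ℂ) := by
      funext b
      rw [← hγ, dat_sum_last hk ha γ b]
      rcases Nat.eq_zero_or_pos b.1 with h | h
      · obtain ⟨b, hb⟩ := b
        simp only at h
        subst h
        simp
      · rw [hg ⟨b.1, by omega⟩ h]
        have : b ≠ ⟨0, by omega⟩ := fun hh => by
          have := congrArg Fin.val hh
          simp only at this
          omega
        simp [this]
    rw [h3] at h2
    have h4 := T.smul_mem (γ ⟨0, by omega⟩)⁻¹ h2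
    rwa [smul_smul, inv_mul_cancel₀ hne, one_smul] at h4
  have hall : ∀ i (hi : i < n), Pi.single (⟨i, hi⟩ : Fin n) (1 : ℂ) ∈ T := by
    intro i
    induction i with
    | zero => intro hi; exact he0
    | succ i ih =>
      intro hi
      have h1 := ih (by omega)
      have h2 : (⟨_, h1⟩ : T) ∈ LinearMap.range L := by rw [hrange]; exact Submodule.mem_top
      obtain ⟨u, hu⟩ := h2
      obtain ⟨γ, hγ⟩ := hex u.1 u.2
      have h3 : ∀ b : Fin n, γ ⟨b.1 + 1, by omega⟩ =
          (Pi.single (⟨i, by omega⟩ : Fin n) (1 : ℂ) : Fin n → ℂ) b := by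
        intro b
        have h4 : u.1 b 0 = (Pi.single (⟨i, by omega⟩ : Fin n) (1 : ℂ) : Fin n → ℂ) b :=
          congrFun (congrArg Subtype.val hu) b
        rw [← hγ, dat_sum_zero hk ha γ b] at h4
        exact h4
      have h5 := hWT _ u.2 (Fin.last a)
      have h6 : Pi.single (⟨i + 1, hi⟩ : Fin n) (1 : ℂ) = (fun b => u.1 b (Fin.last a)) -
          γ ⟨0, by omega⟩ • Pi.single (⟨0, by omega⟩ : Fin n) (1 : ℂ) := by
        funext b
        rw [Pi.sub_apply]
        have h7 : u.1 b (Fin.last a) = γ ⟨b.1, by omega⟩ := by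
          rw [← hγ, dat_sum_last hk ha γ b]
        rw [h7]
        rcases Nat.eq_zero_or_pos b.1 with h | h
        · obtain ⟨b, hb⟩ := b
          simp only at h
          subst h
          have : (⟨0, by omega⟩ : Fin n) ≠ ⟨i + 1, hi⟩ := fun hh => by
            have := congrArg Fin.val hh
            simp at this
          simp [this]
        · have hb : (⟨b.1, by omega⟩ : Fin k) = ⟨(⟨b.1 - 1, by omega⟩ : Fin n).1 + 1,
              by simp only; omega⟩ := Fin.ext (by simp only; omega)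
          rw [hb, h3]
          have hb0 : b ≠ ⟨0, by omega⟩ := fun hh => by
            have := congrArg Fin.val hh
            simp only at this
            omega
          by_cases hbi : b.1 = i + 1
          · have h8 : b = ⟨i + 1, hi⟩ := Fin.ext hbi
            have h9 : (⟨b.1 - 1, by omega⟩ : Fin n) = ⟨i, by omega⟩ :=
              Fin.ext (by simp only; omega)
            rw [h9]
            subst h8
            simp
          · have h8 : b ≠ ⟨i + 1, hi⟩ := fun hh => hbi (congrArg Fin.val hh)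
            have h9 : (⟨b.1 - 1, by omega⟩ : Fin n) ≠ ⟨i, by omega⟩ := fun hh => by
              have := congrArg Fin.val hh
              simp only at this
              omega
            simp [h8, h9, hb0]
      rw [h6]
      exact T.sub_mem h5 (T.smul_mem _ he0)
  refine hT (Submodule.eq_top_iff'.mpr fun t => ?_)
  have h5 : t = ∑ b₀ : Fin n, t b₀ • Pi.single b₀ (1 : ℂ) := by
    funext b
    simp [Finset.sum_apply, Pi.single_apply]
  rw [h5]
  exact Submodule.sum_mem _ fun b₀ _ => T.smul_mem _ (hall b₀.1 b₀.2)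

end Pool.Agent.CSG
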