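import Pool.Agent.CSG.Chi
import Pool.Agent.Hhelper20.CS.Hyp9

/-!
# Euler characteristics of subbundles of `A ^ n`

* `exists_coord`: the coordinate functionals restricted to `S` span the dual of `S`; `exists_linearIndependent'` gives a linearly independent subfamily with the same span;
  if its members vanish at `z ∈ S`, then so do all coordinates of `z`.
* `exists_den`: product of the denominators of `Hyp.gen`.
* `decomp`: `Hyp.exists_decomp` and span induction.
* `deg_main`: compare `degSub_le` in `Hhelper20/CS/Hyp6.lean` (rank one).  `pr z = z ∘ κ` is an isomorphism `S ≃ (Fin r → F)`; let `s i ∈ S` be the inverse images of the unit vectors,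
  `e i = q(x) s i` and `e' i = q'(x⁻¹) s i` their multiples in `h.U ^ n`, `h.swap.U ^ n` (`exists_den`).  `chi_le` and `chi_eq` with `M0 = S ⊓ piS n (Sp A0)`, …, `N0 = piS r (Sp A0)`, …;
  `hs0`: `decomp` for `h` and `q` in each component, `hs1`: `decomp` for `h.swap` and `q'`; `hfin`: as in `Hyp6` (`exists_rem`), `T = piS r (…)`.
  If the Euler characteristic is maximal, then `chi_eq` gives `z i ∈ S ⊓ h.U ^ n` with `pr (z i)` the `i`-th unit vector and `w i ∈ S ⊓ (x ^ a * h.swap.U) ^ n` with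
  `pr (w i)` equal to `x ^ a` times the unit vector.  So `w i = x ^ a • z i`, the components of `z i` lie in `h.U` and `h.swap.U`, and `Hyp.eq_const` applies.
-/

namespace Pool.Agent.CSG

open Polynomial Pool.Agent.Hhelper20.CS

theorem exists_coord {F : Type} [Field F] {n : ℕ} (S : Submodule F (Fin n → F)) :
    ∃ κ : Fin (Module.finrank F S) → Fin n, ∀ z ∈ S, (∀ i, z (κ i) = 0) → z = 0 := by
  let v : Fin n → (S →ₗ[F] F) := fun b => (LinearMap.proj b : (Fin n → F) →ₗ[F] F) ∘ₗ S.subtype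
  obtain ⟨K, a, ha, hspan, hli⟩ := exists_linearIndependent' F v
  have hvan : ∀ z : S, (∀ i : K, (z : Fin n → F) (a i) = 0) → (z : Fin n → F) = 0 := by
    intro z hz
    have h1 : Submodule.span F (Set.range v) ≤ LinearMap.ker (LinearMap.applyₗ (R := F) z) := by
      rw [← hspan, Submodule.span_le]
      rintro _ ⟨i, rfl⟩
      exact hz i
    funext b
    exact h1 (Submodule.subset_span ⟨b, rfl⟩)
  have : Finite K := Finite.of_injective a ha
  have : Fintype K := Fintype.ofFinite K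
  have c1 : Fintype.card K ≤ Module.finrank F S := by
    have h1 := hli.fintype_card_le_finrank
    rw [Module.finrank_linearMap, Module.finrank_self, mul_one] at h1
    exact h1
  have c2 : Module.finrank F S ≤ Fintype.card K := by
    let g : S →ₗ[F] (K → F) := LinearMap.pi fun i => v (a i)
    have hg : Function.Injective g := by
      rw [injective_iff_map_eq_zero]
      intro z hz
      apply Subtype.ext
      exact hvan z fun i => congrFun hz i
    have h1 := LinearMap.finrank_le_finrank_of_injective hg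
    rwa [Module.finrank_fintype_fun_eq_card] at h1
  have c3 : Fintype.card K = Module.finrank F S := le_antisymm c1 c2
  let e : K ≃ Fin (Module.finrank F S) := Fintype.equivFinOfCardEq c3
  refine ⟨fun i => a (e.symm i), ?_⟩
  intro z hz h1
  refine hvan ⟨z, hz⟩ fun i => ?_
  have h2 : z (a (e.symm (e i))) = 0 := h1 (e i)
  rw [Equiv.symm_apply_apply] at h2
  exact h2

variable {F : Type} [Field F] [Algebra ℂ F] {m : ℕ} (h : Hyp F m)

theorem exists_den {n r : ℕ} (s : Fin r → Fin n → F) :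
    ∃ q : ℂ[X], q ≠ 0 ∧ ∀ i b, aeval h.x q * s i b ∈ h.U := by
  have h1 : ∀ p : Fin r × Fin n, ∃ c : ℂ[X], c ≠ 0 ∧ s p.1 p.2 * aeval h.x c ∈ h.U := by
    intro p
    obtain ⟨a, b, c, hc, hz⟩ := h.gen (s p.1 p.2)
    exact ⟨c, hc, a, b, hz⟩
  choose c hc hcU using h1
  refine ⟨∏ p, c p, Finset.prod_ne_zero_iff.2 fun p _ => hc p, ?_⟩
  intro i b
  classical
  rw [← Finset.mul_prod_erase Finset.univ c (Finset.mem_univ (i, b)), map_mul, mul_right_comm,
    mul_comm (aeval h.x (c (i, b)))]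
  exact h.U.mul_mem (hcU (i, b)) (h.aeval_mem _)

theorem decomp {q : ℂ[X]} (hq : q ≠ 0) {z : F} (hz : z ∈ Sp h.lb Set.univ) :
    ∃ w ∈ Sp h.lb Set.univ, ∃ u ∈ h.U, z = aeval h.x q * w + u := by
  unfold Sp at hz
  induction hz using Submodule.span_induction with
  | mem x hx =>
    obtain ⟨i, -, rfl⟩ := hx
    exact h.exists_decomp hq i
  | zero => exact ⟨0, Submodule.zero_mem _, 0, h.U.zero_mem, by simp⟩
  | add x y _ _ hx hy =>
    obtain ⟨w, hw, u, hu, e⟩ := hx
    obtain ⟨w', hw', u', hu', e'⟩ := hy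
    refine ⟨w + w', Submodule.add_mem _ hw hw', u + u', h.U.add_mem hu hu', ?_⟩
    rw [e, e']; ring
  | smul c x _ hx =>
    obtain ⟨w, hw, u, hu, e⟩ := hx
    refine ⟨c • w, Submodule.smul_mem _ _ hw, c • u, h.U.smul_mem hu c, ?_⟩
    rw [e, smul_add, mul_smul_comm]

private theorem deg_finite_piS {W : Type} [AddCommGroup W] [Module ℂ W] (n : ℕ)
    (M : Submodule ℂ W) (hM : Module.Finite ℂ M) : Module.Finite ℂ (piS n M) := by
  let e : piS n M ≃ₗ[ℂ] (Fin n → M) :=
    { toFun := fun z i => ⟨z.1 i, mem_piS.1 z.2 i⟩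
      invFun := fun z => ⟨fun i => z i, mem_piS.2 fun i => (z i).2⟩
      map_add' := fun _ _ => rfl
      map_smul' := fun _ _ => rfl
      left_inv := fun _ => rfl
      right_inv := fun _ => rfl }
  exact Module.Finite.equiv e.symm

private theorem deg_univ_swap : Sp h.swap.lb Set.univ = Sp h.lb Set.univ := by
  apply le_antisymm
  · rw [Sp_le]
    intro i _
    rw [h.swap_lb]
    exact mem_Sp_of _ trivial
  · rw [Sp_le]
    rintro (i | i) _
    · have h1 : h.lb (Sum.inl i) = h.swap.lb (Sum.inl (-i)) := by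
        rw [h.swap_lb]; simp
      rw [h1]
      exact mem_Sp_of _ trivial
    · have h1 : h.lb (Sum.inr i) = h.swap.lb (Sum.inr (-i - m)) := by
        rw [h.swap_lb]; simp
      rw [h1]
      exact mem_Sp_of _ trivial

private theorem deg_pow_mem (k : ℤ) : h.x ^ k ∈ Sp h.lb Set.univ :=
  mem_Sp_of h.lb (S := Set.univ) (i := Sum.inl k) trivial

private theorem deg_U_mem {z : F} (hz : z ∈ h.U) : z ∈ Sp h.lb Hyp.A0 := by
  rw [← h.toSubmodule_U]; exact hz

private theorem deg_U_univ {z : F} (hz : z ∈ h.U) : z ∈ Sp h.lb Set.univ :=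
  Sp_mono _ (Set.subset_univ _) (deg_U_mem h hz)

private theorem deg_swap_univ {z : F} (hz : z ∈ h.swap.U) : z ∈ Sp h.lb Set.univ := by
  rw [← deg_univ_swap]
  exact deg_U_univ h.swap hz

private theorem deg_swap_mem (a : ℤ) {z : F} (hz : z ∈ h.swap.U) :
    h.x ^ a * z ∈ Sp h.lb (Hyp.A1 m a) := by
  rw [← h.toSubmodule_swap_U a]
  exact ⟨z, hz, rfl⟩

theorem deg_main {a : ℕ} (ham : a < m) {n r : ℕ} (S : Submodule F (Fin n → F))
    (κ : Fin r → Fin n) (hr : Module.finrank F S = r)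
    (hκ : ∀ z ∈ S, (∀ i, z (κ i) = 0) → z = 0) :
    chi (S.restrictScalars ℂ ⊓ piS n (Sp h.lb Hyp.A0))
      (S.restrictScalars ℂ ⊓ piS n (Sp h.lb (Hyp.A1 m a)))
      (S.restrictScalars ℂ ⊓ piS n (Sp h.lb Set.univ)) ≤ r * (2 * a + 2 - m) ∧
    ((r * (2 * a + 2 - m) : ℤ) ≤ chi (S.restrictScalars ℂ ⊓ piS n (Sp h.lb Hyp.A0))
      (S.restrictScalars ℂ ⊓ piS n (Sp h.lb (Hyp.A1 m a)))
      (S.restrictScalars ℂ ⊓ piS n (Sp h.lb Set.univ)) →
      ∀ i : Fin r, ∃ t : Fin n → ℂ, (fun b => algebraMap ℂ F (t b)) ∈ S ∧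
        ∀ i', t (κ i') = if i' = i then 1 else 0) := by
  have hm : 0 < m := by omega
  -- the projection
  let prF : S →ₗ[F] (Fin r → F) := LinearMap.funLeft F F κ ∘ₗ S.subtype
  have hprF : Function.Injective prF := by
    rw [injective_iff_map_eq_zero]
    intro z hz
    apply Subtype.ext
    exact hκ z z.2 fun i => congrFun hz i
  have hprS : Function.Surjective prF :=
    (LinearMap.injective_iff_surjective_of_finrank_eq_finrank (by
      rw [hr, Module.finrank_fintype_fun_eq_card, Fintype.card_fin])).1 hprF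
  choose s hs using fun i : Fin r => hprS (Pi.single i 1)
  have hsκ : ∀ i i', (s i : Fin n → F) (κ i') = if i' = i then 1 else 0 := by
    intro i i'
    have h1 := congrFun (hs i) i'
    rw [Pi.single_apply] at h1
    exact h1
  obtain ⟨q, hq, hqU⟩ := exists_den h (fun i => (s i : Fin n → F))
  obtain ⟨q', hq', hqU'⟩ := exists_den h.swap (fun i => (s i : Fin n → F))
  obtain ⟨T0, hT0, hdiv0⟩ := h.exists_rem hq
  obtain ⟨T1, hT1, hdiv1⟩ := h.swap.exists_rem hq'
  let pr : (Fin n → F) →ₗ[ℂ] (Fin r → F) := LinearMap.funLeft ℂ F κ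
  -- lifting
  have hlift : ∀ (w : Fin r → F) (c : F) (M : Submodule ℂ F),
      (∀ i b, w i * (c * (s i : Fin n → F) b) ∈ M) →
      (fun i => c * w i) ∈ (S.restrictScalars ℂ ⊓ piS n M).map pr := by
    intro w c M hM
    refine ⟨∑ i, (w i * c) • (s i : Fin n → F), ⟨?_, ?_⟩, ?_⟩
    · exact S.sum_mem fun i _ => S.smul_mem _ (s i).2
    · rw [SetLike.mem_coe, mem_piS]
      intro b
      rw [Finset.sum_apply]
      refine Submodule.sum_mem _ fun i _ => ?_
      rw [Pi.smul_apply, smul_eq_mul, mul_assoc]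
      exact hM i b
    · funext i'
      change (∑ i, (w i * c) • (s i : Fin n → F)) (κ i') = c * w i'
      rw [Finset.sum_apply, Finset.sum_eq_single i']
      · rw [Pi.smul_apply, hsκ, if_pos rfl, smul_eq_mul, mul_one, mul_comm]
      · intro i _ hi
        rw [Pi.smul_apply, hsκ, if_neg (Ne.symm hi), smul_zero]
      · intro hi
        exact absurd (Finset.mem_univ _) hi
  have hpr : ∀ z ∈ S.restrictScalars ℂ, pr z = 0 → z = 0 := by
    intro z hz hz0
    exact hκ z hz fun i => congrFun hz0 i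
  have hmap : ∀ M : Submodule ℂ F, (S.restrictScalars ℂ ⊓ piS n M).map pr ≤ piS r M := by
    rintro M _ ⟨z, hz, rfl⟩
    rw [mem_piS]
    intro i
    exact mem_piS.1 hz.2 (κ i)
  have hmono : ∀ M M' : Submodule ℂ F, M ≤ M' → piS r M ≤ piS r M' := by
    intro M M' hM z hz
    rw [mem_piS] at hz ⊢
    exact fun i => hM (hz i)
  have hs0 : piS r (Sp h.lb Set.univ) ≤
      (S.restrictScalars ℂ ⊓ piS n (Sp h.lb Set.univ)).map pr ⊔ piS r (Sp h.lb Hyp.A0) := by
    intro z hz
    rw [mem_piS] at hz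
    choose w hw u hu hwu using fun i => decomp h hq (hz i)
    have e : z = (fun i => aeval h.x q * w i) + u := funext hwu
    rw [e]
    refine Submodule.add_mem_sup (hlift w _ _ fun i b => ?_) (mem_piS.2 fun i => deg_U_mem h (hu i))
    exact h.mul_mem_univ (hw i) (deg_U_univ h (hqU i b))
  have hxa : h.x ^ (a : ℤ) * h.x ^ (-(a : ℤ)) = 1 := by
    rw [← zpow_add₀ h.x_ne]; simp
  have hs1 : piS r (Sp h.lb Set.univ) ≤
      (S.restrictScalars ℂ ⊓ piS n (Sp h.lb Set.univ)).map pr ⊔ piS r (Sp h.lb (Hyp.A1 m a)) := by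
    intro z hz
    rw [mem_piS] at hz
    have hz' : ∀ i, h.x ^ (-(a : ℤ)) * z i ∈ Sp h.swap.lb Set.univ := by
      intro i
      rw [deg_univ_swap]
      exact h.mul_mem_univ (deg_pow_mem h _) (hz i)
    choose w hw u hu hwu using fun i => decomp h.swap hq' (hz' i)
    have e : z = (fun i => aeval h.swap.x q' * (h.x ^ (a : ℤ) * w i)) +
        (fun i => h.x ^ (a : ℤ) * u i) := by
      funext i
      have h1 := hwu i
      change z i = aeval h.swap.x q' * (h.x ^ (a : ℤ) * w i) + h.x ^ (a : ℤ) * u i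
      linear_combination (h.x ^ (a : ℤ)) * h1 - z i * hxa
    rw [e]
    refine Submodule.add_mem_sup (hlift (fun i => h.x ^ (a : ℤ) * w i) _ _ fun i b => ?_)
      (mem_piS.2 fun i => deg_swap_mem h a (hu i))
    refine h.mul_mem_univ (h.mul_mem_univ (deg_pow_mem h _) ?_) (deg_swap_univ h (hqU' i b))
    rw [← deg_univ_swap]
    exact hw i
  have f0 : Module.Finite ℂ ↥(Sp h.lb Hyp.A0 ⊓ Sp h.lb (Hyp.A1 m a)) := by
    rw [← Sp_inter h.lb_indep]
    apply finite_Sp
    apply Set.finite_of_ncard_pos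
    have e0 : (Hyp.A0 ∩ Hyp.A1 m a).ncard = a + 1 := Hyp.ncard_inter a ham
    omega
  have hfin0 : Module.Finite ℂ ↥(piS r (Sp h.lb Hyp.A0) ⊓ piS r (Sp h.lb (Hyp.A1 m a))) := by
    rw [piS_inf]
    exact deg_finite_piS _ _ f0
  have f1 : Module.Finite ℂ (Sp h.lb (Hyp.A0 ∪ Hyp.A1 m a)ᶜ) := finite_Sp _ (Hyp.finite_compl a)
  let T : Submodule ℂ F :=
    Sp h.lb (Hyp.A0 ∪ Hyp.A1 m a)ᶜ ⊔ (T0 ⊔ T1.map (LinearMap.mulLeft ℂ (h.x ^ (a : ℤ))))
  have hT : Module.Finite ℂ T := inferInstance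
  have hTf : Module.Finite ℂ (piS r T) := deg_finite_piS _ _ hT
  have hfin : piS r (Sp h.lb Set.univ) ≤ piS r T ⊔
      ((S.restrictScalars ℂ ⊓ piS n (Sp h.lb Hyp.A0)).map pr ⊔
        (S.restrictScalars ℂ ⊓ piS n (Sp h.lb (Hyp.A1 m a))).map pr) := by
    intro z hz
    rw [mem_piS] at hz
    have h1 : ∀ i, ∃ t ∈ T, ∃ u ∈ h.U, ∃ v ∈ h.swap.U,
        z i = t + aeval h.x q * u + aeval h.swap.x q' * (h.x ^ (a : ℤ) * v) := by
      intro i
      have h2 : z i ∈ Sp h.lb ((Hyp.A0 ∪ Hyp.A1 m a)ᶜ ∪ (Hyp.A0 ∪ Hyp.A1 m a)) := by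
        rw [Set.compl_union_self]
        exact hz i
      rw [Sp_union, Sp_union] at h2
      obtain ⟨c, hc, y, hy, hcy⟩ := Submodule.mem_sup.1 h2
      obtain ⟨u, hu, v, hv, huv⟩ := Submodule.mem_sup.1 hy
      have hu' : u ∈ h.U := by
        have h3 : u ∈ Subalgebra.toSubmodule h.U := by rw [h.toSubmodule_U]; exact hu
        exact h3
      have hv' : ∃ v' ∈ h.swap.U, h.x ^ (a : ℤ) * v' = v := by
        rw [← h.toSubmodule_swap_U a] at hv
        exact hv
      obtain ⟨v', hv', rfl⟩ := hv'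
      obtain ⟨t, ht, w, hw, hwu⟩ := hdiv0 _ hu'
      obtain ⟨t', ht', w', hw', hwu'⟩ := hdiv1 _ hv'
      refine ⟨c + (t + h.x ^ (a : ℤ) * t'), ?_, w, hw, w', hw', ?_⟩
      · exact Submodule.add_mem_sup hc (Submodule.add_mem_sup ht ⟨t', ht', rfl⟩)
      · rw [← hcy, ← huv, hwu, hwu']
        ring
    choose t ht u hu v hv huv using h1
    have e : z = t + ((fun i => aeval h.x q * u i) +
        (fun i => aeval h.swap.x q' * (h.x ^ (a : ℤ) * v i))) := by
      funext i
      rw [huv i]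
      change _ = t i + (aeval h.x q * u i + aeval h.swap.x q' * (h.x ^ (a : ℤ) * v i))
      ring
    rw [e]
    refine Submodule.add_mem_sup (mem_piS.2 ht) (Submodule.add_mem_sup
      (hlift u _ _ fun i b => ?_) (hlift (fun i => h.x ^ (a : ℤ) * v i) _ _ fun i b => ?_))
    · exact deg_U_mem h (h.U.mul_mem (hu i) (hqU i b))
    · rw [mul_assoc]
      exact deg_swap_mem h a (h.swap.U.mul_mem (hv i) (hqU' i b))
  have hN : chi (piS r (Sp h.lb Hyp.A0)) (piS r (Sp h.lb (Hyp.A1 m a)))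
      (piS r (Sp h.lb Set.univ)) = r * (2 * a + 2 - m) := by
    unfold chi
    have e0 : (Hyp.A0 ∩ Hyp.A1 m a).ncard = a + 1 := Hyp.ncard_inter a ham
    have e1 : (Hyp.A0 ∪ Hyp.A1 m a)ᶜ.ncard = m - 1 - a := Hyp.ncard_compl a
    have f2 : Module.Finite ℂ (↥(Sp h.lb Set.univ) ⧸
        (Sp h.lb Hyp.A0 ⊔ Sp h.lb (Hyp.A1 m a)).comap (Sp h.lb Set.univ).subtype) := by
      rw [← Sp_union]
      apply finite_quot_Sp h.lb_indep
      rw [← Set.compl_eq_univ_sdiff]
      exact Hyp.finite_compl a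
    rw [h0_piS, h1_piS, h0_Sp h.lb_indep, h1_Sp h.lb_indep, e0, e1]
    have e2 : ((m - 1 - a : ℕ) : ℤ) = (m : ℤ) - 1 - a := by omega
    push_cast
    rw [e2]
    ring
  refine ⟨?_, ?_⟩
  · rw [← hN]
    exact chi_le pr (S.restrictScalars ℂ) _ _ _ _ _ _ hpr inf_le_left inf_le_left inf_le_left
      (hmap _) (hmap _) (hmap _)
      (hs0.trans (sup_le_sup_left le_sup_left _)) hfin0 _ hTf hfin
  · intro hchi
    rw [← hN] at hchi
    obtain ⟨k0, k1⟩ := chi_eq pr (S.restrictScalars ℂ) _ _ _ _ _ _ hpr inf_le_left inf_le_left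
      inf_le_left (hmap _) (hmap _) (hmap _)
      (hmono _ _ (Sp_mono _ (Set.subset_univ _))) (hmono _ _ (Sp_mono _ (Set.subset_univ _)))
      hs0 hs1 hfin0 _ hTf hfin hchi
    intro i
    have h1 : (Pi.single i 1 : Fin r → F) ∈ piS r (Sp h.lb Hyp.A0) := by
      rw [mem_piS]
      intro j
      apply deg_U_mem
      rw [Pi.single_apply]
      split_ifs
      · exact h.U.one_mem
      · exact h.U.zero_mem
    have h2 : (fun j => h.x ^ (a : ℤ) * (Pi.single i 1 : Fin r → F) j) ∈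
        piS r (Sp h.lb (Hyp.A1 m a)) := by
      rw [mem_piS]
      intro j
      apply deg_swap_mem
      rw [Pi.single_apply]
      split_ifs
      · exact h.swap.U.one_mem
      · exact h.swap.U.zero_mem
    obtain ⟨z, ⟨hzS, hz⟩, hz1⟩ := k0 h1
    obtain ⟨w, ⟨hwS, hw⟩, hw1⟩ := k1 h2
    rw [SetLike.mem_coe, mem_piS] at hz hw
    have hwz : w = h.x ^ (a : ℤ) • z := by
      have h3 : w - h.x ^ (a : ℤ) • z ∈ S := S.sub_mem hwS (S.smul_mem _ hzS)
      have h4 := hκ _ h3 (fun j => by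
        have e1 : w (κ j) = h.x ^ (a : ℤ) * (Pi.single i 1 : Fin r → F) j := congrFun hw1 j
        have e2 : z (κ j) = (Pi.single i 1 : Fin r → F) j := congrFun hz1 j
        rw [Pi.sub_apply, Pi.smul_apply, smul_eq_mul, e1, e2, sub_self])
      exact sub_eq_zero.1 h4
    have hc : ∀ b, ∃ c : ℂ, z b = algebraMap ℂ F c := by
      intro b
      refine h.eq_const hm ?_ ?_
      · have h3 : z b ∈ Subalgebra.toSubmodule h.U := by rw [h.toSubmodule_U]; exact hz b
        exact h3
      · have h3 := hw b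
        rw [← h.toSubmodule_swap_U a] at h3
        obtain ⟨y, hy, hyb⟩ := h3
        have h4 : h.x ^ (a : ℤ) * y = h.x ^ (a : ℤ) * z b := by
          rw [hwz] at hyb
          exact hyb
        rw [← mul_left_cancel₀ (zpow_ne_zero _ h.x_ne) h4]
        exact hy
    choose t ht using hc
    refine ⟨t, ?_, ?_⟩
    · have e : (fun b => algebraMap ℂ F (t b)) = z := funext fun b => (ht b).symm
      rw [e]
      exact hzS
    · intro i'
      apply (algebraMap ℂ F).injective
      rw [← ht]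
      have e2 : z (κ i') = (Pi.single i 1 : Fin r → F) i' := congrFun hz1 i'
      rw [e2, Pi.single_apply]
      split_ifs <;> simp

end Pool.Agent.CSG
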