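import Pool.Agent.CSG.Lin
import Pool.Agent.Hhelper20.CS.Hyp9

/-!
# Families with constant underlying bundle `A^n`

`A` is the `a`-th power of the hyperelliptic line bundle on `y ^ 2 = x ^ (2 m) + 1`, with gluing function `x ^ a`; its sections are the polynomials in `x` of degree at
most `a` (`a < m`).  `pol a c`, `pol' a c` are the sections with coefficients `c` on the two charts, `gfam s` is the family of coherent systems with
coefficients `s`.
-/

open TensorProduct Polynomial Pool.Agent.Hhelper20.CS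

namespace Pool.Agent.CSG

variable {F : Type} [Field F] [Algebra ℂ F] {m : ℕ} (h : Hyp F m) {k n a : ℕ}

/-- The polynomial with coefficients `c`. -/
noncomputable def pol (a : ℕ) : (Fin (a + 1) → ℂ) →ₗ[ℂ] F where
  toFun c := ∑ i, c i • h.x ^ ((i : ℕ) : ℤ)
  map_add' c c' := by
    simp only [Pi.add_apply, add_smul, Finset.sum_add_distrib]
  map_smul' r c := by
    simp only [Pi.smul_apply, smul_eq_mul, mul_smul, Finset.smul_sum, RingHom.id_apply]

/-- The polynomial with coefficients `c`, divided by `x ^ a`. -/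
noncomputable def pol' (a : ℕ) : (Fin (a + 1) → ℂ) →ₗ[ℂ] F where
  toFun c := ∑ i, c i • h.x ^ (((i : ℕ) : ℤ) - a)
  map_add' c c' := by
    simp only [Pi.add_apply, add_smul, Finset.sum_add_distrib]
  map_smul' r c := by
    simp only [Pi.smul_apply, smul_eq_mul, mul_smul, Finset.smul_sum, RingHom.id_apply]

theorem pol_apply (c : Fin (a + 1) → ℂ) : pol h a c = ∑ i, c i • h.x ^ ((i : ℕ) : ℤ) := rfl

theorem pol'_apply (c : Fin (a + 1) → ℂ) : pol' h a c = ∑ i, c i • h.x ^ (((i : ℕ) : ℤ) - a) := rfl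

theorem pol_eq (c : Fin (a + 1) → ℂ) : pol h a c = h.x ^ (a : ℤ) * pol' h a c := by
  rw [pol_apply, pol'_apply, Finset.mul_sum]
  refine Finset.sum_congr rfl fun i _ => ?_
  rw [mul_smul_comm, ← zpow_add₀ h.x_ne]
  congr 2
  ring

theorem co_pol (c : Fin (a + 1) → ℂ) (i : Fin (a + 1)) :
    co h.lb_indep (pol h a c) (Sum.inl ((i : ℕ) : ℤ)) = c i := by
  rw [pol_apply, map_sum, Finset.sum_apply']
  simp only [map_smul]
  have h1 : ∀ j : Fin (a + 1), co h.lb_indep (h.x ^ ((j : ℕ) : ℤ)) =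
      Finsupp.single (Sum.inl ((j : ℕ) : ℤ)) 1 := fun j => co_b h.lb_indep (Sum.inl ((j : ℕ) : ℤ))
  simp only [h1, Finsupp.smul_apply, Finsupp.single_apply, smul_eq_mul]
  rw [Finset.sum_eq_single i]
  · simp
  · intro j _ hj
    rw [if_neg, mul_zero]
    intro e
    apply hj
    apply Fin.ext
    have := Sum.inl.inj e
    exact_mod_cast this
  · intro hi
    exact absurd (Finset.mem_univ i) hi

theorem pol_injective : Function.Injective (pol h a) := by
  rw [injective_iff_map_eq_zero]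
  intro c hc
  funext i
  have h1 := co_pol h c i
  rw [hc, map_zero] at h1
  exact h1.symm

/-- The sections of `A` are the polynomials of degree at most `a`. -/
theorem mem_pol (ham : a < m) {z : F} : z ∈ Sp h.lb (Hyp.A0 ∩ Hyp.A1 m a) ↔ ∃ c, pol h a c = z := by
  rw [Hyp.inter_eq a ham]
  constructor
  · intro hz
    refine ⟨fun i => co h.lb_indep z (Sum.inl ((i : ℕ) : ℤ)), ?_⟩
    obtain ⟨h1, h2⟩ := co_mem h.lb_indep hz
    conv_rhs => rw [← h2]
    rw [Finsupp.linearCombination_apply, Finsupp.sum_of_support_subset (s :=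
      Finset.univ.image fun i : Fin (a + 1) => (Sum.inl ((i : ℕ) : ℤ) : ℤ ⊕ ℤ))]
    · rw [Finset.sum_image]
      · rfl
      · intro i _ j _ e
        apply Fin.ext
        exact_mod_cast Sum.inl.inj e
    · intro p hp
      obtain ⟨i, hi, rfl⟩ := (Finsupp.mem_supported _ _).1 h1 hp
      rw [Finset.mem_image]
      have hi2 := hi.2
      refine ⟨⟨i.toNat, ?_⟩, Finset.mem_univ _, ?_⟩
      · omega
      · simp only [Sum.inl.injEq]
        have := hi.1
        omega
    · intro i _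
      exact zero_smul _ _
  · rintro ⟨c, rfl⟩
    rw [pol_apply]
    refine Submodule.sum_mem _ fun i _ => Submodule.smul_mem _ _ ?_
    exact mem_Sp_of h.lb (i := Sum.inl ((i : ℕ) : ℤ)) ⟨_, ⟨Int.natCast_nonneg _, by
      have := i.2
      omega⟩, rfl⟩

theorem pol_mem_U (c : Fin (a + 1) → ℂ) : pol h a c ∈ h.U := by
  rw [pol_apply]
  refine h.U.sum_mem fun i _ => h.U.smul_mem ?_ _
  rw [zpow_natCast]
  exact h.U.pow_mem h.x_mem _

theorem x_neg_mem (i : Fin (a + 1)) : h.x ^ (((i : ℕ) : ℤ) - a) ∈ h.swap.U := by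
  have h1 : h.x ^ (((i : ℕ) : ℤ) - a) = h.x⁻¹ ^ (a - (i : ℕ)) := by
    rw [inv_pow, ← zpow_natCast, ← zpow_neg]
    congr 1
    have := i.2
    omega
  rw [h1]
  exact h.swap.U.pow_mem h.swap.x_mem _

theorem pol'_mem_U (c : Fin (a + 1) → ℂ) : pol' h a c ∈ h.swap.U := by
  rw [pol'_apply]
  exact h.swap.U.sum_mem fun i _ => h.swap.U.smul_mem (x_neg_mem h i) _

section family

variable {B B' : Type} [CommRing B] [Algebra ℂ B] [CommRing B'] [Algebra ℂ B']

/-- The section with coefficients `c` on the first chart, over a base `B`. -/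
noncomputable def plB (a : ℕ) (c : Fin (a + 1) → B) : B ⊗[ℂ] F :=
  ∑ i, c i ⊗ₜ[ℂ] (h.x ^ ((i : ℕ) : ℤ))

/-- The section with coefficients `c` on the second chart, over a base `B`. -/
noncomputable def plB' (a : ℕ) (c : Fin (a + 1) → B) : B ⊗[ℂ] F :=
  ∑ i, c i ⊗ₜ[ℂ] (h.x ^ (((i : ℕ) : ℤ) - a))

theorem bc_plB (φ : B →ₐ[ℂ] B') (c : Fin (a + 1) → B) :
    bc φ (plB h a c) = plB h a fun i => φ (c i) := by
  simp only [plB, map_sum, bc_tmul]

theorem bc_plB' (φ : B →ₐ[ℂ] B') (c : Fin (a + 1) → B) :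
    bc φ (plB' h a c) = plB' h a fun i => φ (c i) := by
  simp only [plB', map_sum, bc_tmul]

theorem ev_plB (ρ : B →ₐ[ℂ] ℂ) (c : Fin (a + 1) → B) :
    ev ρ (plB h a c) = pol h a fun i => ρ (c i) := by
  simp only [plB, map_sum, ev_tmul, pol_apply]

theorem ev_plB' (ρ : B →ₐ[ℂ] ℂ) (c : Fin (a + 1) → B) :
    ev ρ (plB' h a c) = pol' h a fun i => ρ (c i) := by
  simp only [plB', map_sum, ev_tmul, pol'_apply]

theorem Dl_plB (l : B →ₗ[ℂ] ℂ) (c : Fin (a + 1) → B) :
    Dl l (plB h a c) = pol h a fun i => l (c i) := by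
  simp only [plB, map_sum, Dl_tmul, pol_apply]

theorem plB_mem (c : Fin (a + 1) → B) : plB h a c ∈ fn B h.U := by
  unfold plB
  refine AddSubmonoid.sum_mem _ fun i _ => tmul_mem_fn _ ?_
  rw [zpow_natCast]
  exact h.U.pow_mem h.x_mem _

theorem plB'_mem (c : Fin (a + 1) → B) : plB' h a c ∈ fn B h.swap.U := by
  unfold plB'
  exact AddSubmonoid.sum_mem _ fun i _ => tmul_mem_fn _ (x_neg_mem h i)

/-- The unit `x ^ a`. -/
noncomputable def gux (a : ℕ) (B : Type) [CommRing B] [Algebra ℂ B] : (B ⊗[ℂ] F)ˣ where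
  val := 1 ⊗ₜ (h.x ^ (a : ℤ))
  inv := 1 ⊗ₜ (h.x ^ (-(a : ℤ)))
  val_inv := by
    rw [Algebra.TensorProduct.tmul_mul_tmul, Algebra.TensorProduct.one_def, mul_one,
      ← zpow_add₀ h.x_ne]
    simp
  inv_val := by
    rw [Algebra.TensorProduct.tmul_mul_tmul, Algebra.TensorProduct.one_def, mul_one,
      ← zpow_add₀ h.x_ne]
    simp

/-- The gluing matrix. -/
noncomputable def ggM (n a : ℕ) (B : Type) [CommRing B] [Algebra ℂ B] : GL (Fin n) (B ⊗[ℂ] F) :=
  Units.map (Matrix.scalar (Fin n)).toMonoidHom (gux h a B)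

theorem ggM_val : (ggM h n a B).val = Matrix.diagonal fun _ => 1 ⊗ₜ (h.x ^ (a : ℤ)) := rfl

theorem ggM_inv : (ggM h n a B).inv = Matrix.diagonal fun _ => 1 ⊗ₜ (h.x ^ (-(a : ℤ))) := rfl

/-- All values of the coefficients at points of the base are linearly independent. -/
def Ind (s : Co B k n a) : Prop :=
  ∀ ρ : B →ₐ[ℂ] ℂ, LinearIndependent ℂ (fun j b i => ρ (s j b i) : Co ℂ k n a)

theorem Ind.map {s : Co B k n a} (hs : Ind s) (φ : B →ₐ[ℂ] B') :
    Ind (fun j b i => φ (s j b i) : Co B' k n a) := fun ρ => hs (ρ.comp φ)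

/-- The family with coefficients `s`. -/
noncomputable def gfam (hm : 0 < m) (s : Co B k n a) (hs : Ind s) : CohSys (h.curve hm) B n k where
  g := ggM h n a B
  s0 := Matrix.of fun b j => plB h a (s j b)
  s1 := Matrix.of fun b j => plB' h a (s j b)
  hg := by
    refine ⟨?_, ?_⟩
    · intro b b'
      rw [ggM_val, Matrix.diagonal_apply]
      split_ifs
      · exact tmul_mem_fn _ (h.x_pow_mem_U01 hm _)
      · exact AddSubmonoid.zero_mem _
    · intro b b'
      rw [ggM_inv, Matrix.diagonal_apply]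
      split_ifs
      · exact tmul_mem_fn _ (h.x_pow_mem_U01 hm _)
      · exact AddSubmonoid.zero_mem _
  h0 := fun b j => plB_mem h (s j b)
  h1 := fun b j => plB'_mem h (s j b)
  glue := by
    ext b j
    rw [ggM_val, Matrix.diagonal_mul, Matrix.of_apply, Matrix.of_apply, plB, plB',
      Finset.mul_sum]
    refine Finset.sum_congr rfl fun i _ => ?_
    rw [Algebra.TensorProduct.tmul_mul_tmul, one_mul, ← zpow_add₀ h.x_ne]
    congr 2
    ring
  indep := by
    intro ρ
    let L : (Fin n → Fin (a + 1) → ℂ) →ₗ[ℂ] (Fin n → F) :=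
      LinearMap.pi fun b => pol h a ∘ₗ LinearMap.proj b
    have hL : Function.Injective L := by
      intro u v huv
      funext b
      exact pol_injective h (congrFun huv b)
    have h1 := (hs ρ).map' L (LinearMap.ker_eq_bot.2 hL)
    have h2 : (fun (j : Fin k) (b : Fin n) => ev ρ
        ((Matrix.of fun b j => plB h a (s j b) : Matrix (Fin n) (Fin k) (B ⊗[ℂ] F)) b j)) =
        L ∘ (fun j b i => ρ (s j b i) : Co ℂ k n a) := by
      funext j b
      rw [Matrix.of_apply, ev_plB]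
      rfl
    rw [h2]
    exact h1

theorem gfam_s0 (hm : 0 < m) (s : Co B k n a) (hs : Ind s) (b : Fin n) (j : Fin k) :
    (gfam h hm s hs).s0 b j = plB h a (s j b) := rfl

theorem gfam_s1 (hm : 0 < m) (s : Co B k n a) (hs : Ind s) (b : Fin n) (j : Fin k) :
    (gfam h hm s hs).s1 b j = plB' h a (s j b) := rfl

theorem gfam_g (hm : 0 < m) (s : Co B k n a) (hs : Ind s) (b b' : Fin n) :
    (gfam h hm s hs).g.val b b' = if b = b' then 1 ⊗ₜ (h.x ^ (a : ℤ)) else 0 := by
  change (ggM h n a B).val b b' = _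
  rw [ggM_val, Matrix.diagonal_apply]

theorem gfam_map (hm : 0 < m) (φ : B →ₐ[ℂ] B') (s : Co B k n a) (hs : Ind s) :
    (gfam h hm s hs).map φ = gfam h hm (fun j b i => φ (s j b i)) (hs.map φ) := by
  apply CohSys.ext'
  · apply Units.ext
    ext b b'
    change bc φ ((gfam h hm s hs).g.val b b') = (gfam h hm _ (hs.map φ)).g.val b b'
    rw [gfam_g, gfam_g]
    split_ifs
    · rw [bc_tmul, map_one]
    · rw [map_zero]
  · ext b j
    exact bc_plB h φ _
  · ext b j
    exact bc_plB' h φ _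

end family

/-- Over `ℂ`, linear independence of the coefficients. -/
theorem Ind.of {c : Co ℂ k n a} (hc : LinearIndependent ℂ c) : Ind c := by
  intro ρ
  have h1 : ρ = AlgHom.id ℂ ℂ := Subsingleton.elim _ _
  rw [h1]
  exact hc

variable (hm : 0 < m) (c : Co ℂ k n a) (hc : Ind c)

theorem gfam_det {B : Type} [CommRing B] [Algebra ℂ B] (s : Co B k n a) (hs : Ind s) :
    CohSys.SameDet (gfam h hm c hc) (gfam h hm s hs) := by
  refine ⟨1, 1, 1, 1, one_mem_fn, one_mem_fn, one_mul 1, one_mem_fn, one_mem_fn, one_mul 1, ?_⟩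
  rw [one_mul, mul_one]
  have h1 := RingHom.map_det (bc (F := F) (Algebra.ofId ℂ B)) (gfam h hm c hc).g.val
  rw [h1]
  congr 1
  ext b b'
  change _ = bc (Algebra.ofId ℂ B) ((gfam h hm c hc).g.val b b')
  rw [gfam_g, gfam_g]
  split_ifs
  · rw [bc_tmul, map_one]
  · rw [map_zero]

theorem ev_gsys_s0 (b : Fin n) (j : Fin k) :
    ev (AlgHom.id ℂ ℂ) ((gfam h hm c hc).s0 b j) = pol h a (c j b) := by
  rw [gfam_s0, ev_plB]
  rfl

theorem ev_gsys_s1 (b : Fin n) (j : Fin k) :
    ev (AlgHom.id ℂ ℂ) ((gfam h hm c hc).s1 b j) = pol' h a (c j b) := by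
  rw [gfam_s1, ev_plB']
  rfl

theorem ev_gsys_g (b b' : Fin n) :
    ev (AlgHom.id ℂ ℂ) ((gfam h hm c hc).g.val b b') = if b = b' then h.x ^ (a : ℤ) else 0 := by
  rw [gfam_g]
  split_ifs
  · rw [ev_tmul]
    simp only [AlgHom.coe_id, id_eq, one_smul]
  · rw [map_zero]

theorem gsys_V : (gfam h hm c hc).V =
    (Submodule.span ℂ (Set.range c)).map (LinearMap.pi fun b => pol h a ∘ₗ LinearMap.proj b) := by
  unfold CohSys.V
  rw [Submodule.map_span, ← Set.range_comp]
  congr 2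
  funext j b
  exact ev_gsys_s0 h hm c hc b j

theorem gsys_gF : (gfam h hm c hc).gF = Matrix.scalar (Fin n) (h.x ^ (a : ℤ)) := by
  ext b b'
  change ev (AlgHom.id ℂ ℂ) ((gfam h hm c hc).g.val b b') = _
  rw [ev_gsys_g, Matrix.scalar_apply, Matrix.diagonal_apply]

theorem gsys_E0 : (gfam h hm c hc).E0 = piS n (Sp h.lb Hyp.A0) := by
  rw [← h.toSubmodule_U]; rfl

theorem gsys_E01 : (gfam h hm c hc).E01 = piS n (Sp h.lb Set.univ) := by
  rw [← h.toSubmodule_U01 hm]; rfl

theorem gsys_E1 : (gfam h hm c hc).E1 = piS n (Sp h.lb (Hyp.A1 m a)) := by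
  unfold CohSys.E1
  rw [gsys_gF, ← h.toSubmodule_swap_U a]
  change (piS n (Subalgebra.toSubmodule h.swap.U)).map _ = _
  ext z
  constructor
  · rintro ⟨w, hw, rfl⟩
    rw [mem_piS]
    intro i
    refine ⟨w i, mem_piS.1 hw i, ?_⟩
    simp only [LinearMap.mulLeft_apply, LinearMap.coe_restrictScalars, Matrix.mulVecLin_apply,
      Matrix.scalar_apply, Matrix.mulVec_diagonal]
  · intro hz
    rw [mem_piS] at hz
    choose w hw hwz using hz
    refine ⟨w, mem_piS.2 hw, ?_⟩
    funext i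
    rw [← hwz i]
    simp only [LinearMap.mulLeft_apply, LinearMap.coe_restrictScalars, Matrix.mulVecLin_apply,
      Matrix.scalar_apply, Matrix.mulVec_diagonal]

theorem finite_inter (ham : a < m) :
    Module.Finite ℂ ↥(Sp h.lb Hyp.A0 ⊓ Sp h.lb (Hyp.A1 m a)) := by
  rw [← Sp_inter h.lb_indep]
  apply finite_Sp
  apply Set.finite_of_ncard_pos
  rw [Hyp.ncard_inter a ham]
  omega

/-- The Euler characteristic of `A`. -/
theorem chi_A (ham : a < m) : chi (Sp h.lb Hyp.A0) (Sp h.lb (Hyp.A1 m a)) (Sp h.lb Set.univ) =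
    2 * a + 2 - m := by
  unfold chi
  rw [h0_Sp h.lb_indep, h1_Sp h.lb_indep, Hyp.ncard_inter a ham, Hyp.ncard_compl a]
  omega

theorem gsys_deg (ham : a < m) : (gfam h hm c hc).deg = 2 * n * a := by
  unfold CohSys.deg CohSys.degSub
  have ht : (⊤ : Submodule F (Fin n → F)).restrictScalars ℂ = ⊤ := rfl
  rw [ht, top_inf_eq, top_inf_eq, top_inf_eq, gsys_E0, gsys_E1, gsys_E01, h.chiO_curve, chi]
  have f0 := finite_inter h ham
  have f1 : Module.Finite ℂ (↥(Sp h.lb Set.univ) ⧸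
      (Sp h.lb Hyp.A0 ⊔ Sp h.lb (Hyp.A1 m a)).comap (Sp h.lb Set.univ).subtype) := by
    rw [← Sp_union]
    apply finite_quot_Sp h.lb_indep
    rw [← Set.compl_eq_univ_sdiff]
    exact Hyp.finite_compl a
  have h2 := chi_A h ham
  unfold chi at h2
  rw [h0_piS, h1_piS, finrank_top, Module.finrank_fintype_fun_eq_card, Fintype.card_fin]
  push_cast
  linear_combination (n : ℤ) * h2

theorem gsys_h1det : (gfam h hm c hc).h1det = m - 1 - n * a := by
  unfold CohSys.h1det
  have hd : (gfam h hm c hc).gF.det = h.x ^ ((n * a : ℕ) : ℤ) := by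
    rw [gsys_gF, Matrix.scalar_apply, Matrix.det_diagonal, Finset.prod_const, Finset.card_univ,
      Fintype.card_fin, ← zpow_natCast, ← zpow_mul]
    congr 1
    push_cast
    ring
  rw [hd, h.toSubmodule_U01]
  change h1 (Subalgebra.toSubmodule h.U) ((Subalgebra.toSubmodule h.swap.U).map
    (LinearMap.mulLeft ℂ (h.x ^ ((n * a : ℕ) : ℤ)))) _ = _
  rw [h.toSubmodule_U, h.toSubmodule_swap_U, h1_Sp h.lb_indep]
  exact Hyp.ncard_compl (n * a)

end Pool.Agent.CSG
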