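import Pool.Agent.CSG.Deg
import Pool.Agent.CSG.Fam

/-!
# Degrees of subbundles

`degSub_le`: `exists_coord`, `deg_main`, `gsys_E0`, `gsys_E1`, `gsys_E01`, `Hyp.chiO_curve`.  In the second part let `t i` be the vectors of `deg_main` and `T` their span.
If `v = (fun b => pol h a (u b)) ∈ S`, then `v = ∑ i, v (κ i) • (t i)` (both sides are in `S` and have the same coordinates `κ i`), so `u b j = ∑ i, u (κ i) j * t i b` (`co_pol` or
`pol_injective`), i.e. the coefficient vectors lie in `T`.
-/

namespace Pool.Agent.CSG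

open Pool.Agent.Hhelper20.CS

variable {F : Type} [Field F] [Algebra ℂ F] {m : ℕ} (h : Hyp F m) {k n a : ℕ}

/-- Coordinates of a vector of `S` with polynomial components. -/
theorem coeff_mem_span {r : ℕ} (S : Submodule F (Fin n → F)) (κ : Fin r → Fin n)
    (hκ : ∀ z ∈ S, (∀ i, z (κ i) = 0) → z = 0) (t : Fin r → Fin n → ℂ)
    (ht : ∀ i, (fun b => algebraMap ℂ F (t i b)) ∈ S)
    (htκ : ∀ i i', t i (κ i') = if i' = i then 1 else 0)
    (u : Fin n → Fin (a + 1) → ℂ) (hu : (fun b => pol h a (u b)) ∈ S) (j : Fin (a + 1)) :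
    (fun b => u b j) ∈ Submodule.span ℂ (Set.range t) := by
  have h1 : (fun b => pol h a (u b)) -
      ∑ i, pol h a (u (κ i)) • (fun b => algebraMap ℂ F (t i b)) = 0 := by
    apply hκ
    · exact S.sub_mem hu (S.sum_mem fun i _ => S.smul_mem _ (ht i))
    · intro i'
      rw [Pi.sub_apply, Finset.sum_apply]
      simp only [Pi.smul_apply, smul_eq_mul, htκ]
      rw [Finset.sum_eq_single i']
      · simp
      · intro i _ hi
        rw [if_neg (Ne.symm hi)]
        simp
      · intro hi
        exact absurd (Finset.mem_univ i') hi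
  have h2 : ∀ b, u b = ∑ i, t i b • u (κ i) := by
    intro b
    apply pol_injective h
    have h3 := congrFun h1 b
    rw [Pi.sub_apply, Finset.sum_apply, Pi.zero_apply, sub_eq_zero] at h3
    rw [h3, map_sum]
    refine Finset.sum_congr rfl fun i _ => ?_
    rw [map_smul, Pi.smul_apply, smul_eq_mul, Algebra.smul_def, mul_comm]
  have h4 : (fun b => u b j) = ∑ i, u (κ i) j • t i := by
    funext b
    rw [h2 b, Finset.sum_apply, Finset.sum_apply]
    refine Finset.sum_congr rfl fun i _ => ?_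
    rw [Pi.smul_apply, Pi.smul_apply, smul_eq_mul, smul_eq_mul, mul_comm]
  rw [h4]
  exact Submodule.sum_mem _ fun i _ => Submodule.smul_mem _ _
    (Submodule.subset_span ⟨i, rfl⟩)

theorem degSub_le (hm : 0 < m) (ham : a < m) (c : Co ℂ k n a) (hc : Ind c)
    (S : Submodule F (Fin n → F)) :
    (gfam h hm c hc).degSub S ≤ 2 * a * Module.finrank F S ∧
    ((2 * a * Module.finrank F S : ℤ) ≤ (gfam h hm c hc).degSub S →
      ∃ T : Submodule ℂ (Fin n → ℂ), Module.finrank ℂ T ≤ Module.finrank F S ∧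
        ∀ u : Fin n → Fin (a + 1) → ℂ, (fun b => pol h a (u b)) ∈ S →
          ∀ i, (fun b => u b i) ∈ T) := by
  obtain ⟨κ, hκ⟩ := exists_coord S
  obtain ⟨h1, h2⟩ := deg_main h ham S κ rfl hκ
  unfold CohSys.degSub
  rw [gsys_E0, gsys_E1, gsys_E01, h.chiO_curve]
  refine ⟨by linarith [h1], ?_⟩
  intro h3
  have h4 := h2 (by linarith [h3])
  choose t ht htκ using h4
  refine ⟨Submodule.span ℂ (Set.range t), ?_, ?_⟩
  · refine (finrank_range_le_card t).trans ?_
    rw [Fintype.card_fin]
  · intro u hu i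
    exact coeff_mem_span h S κ hκ t ht htκ u hu i

end Pool.Agent.CSG
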