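import Pool.Agent.Hhelper20.CS.Hyp8

/-!
# Fixed determinant: the first order condition, and the bound for the local dimension

* `sameDet_iso`: determinants in the definition of `Iso` (`Matrix.det_mul`; `GOver` gives that `det` of the frame changes and their inverses lie in `fn`).
* `trace_mem`: the map `B ⊗ F → DualNumber F`, `z ↦ (ev ρ z, Dl l z)` is a ring homomorphism (`Dl_mul`); apply it to the relation in `SameDet`:
  `det (gF * (1 + ε G)) = det gF * (1 + ε tr G)` (`Matrix.det_one_add_smul`), so `1 + ε tr G = (ev u0 + ε Dl u0) (ev u1 + ε Dl u1)`, `ev u0 * ev u1 = 1 = ev u0 * ev v0`,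
  `tr G = Dl u0 * ev v0 + ev v1 * Dl u1`.
* `localDim_le_of`: the proof of `CohSys.localDim_le` (`Hhelper20/CS/Bound.lean`) with `sameDet_iso`.
-/

open TensorProduct

namespace Pool.Agent.CSG

open Pool.Agent.Hhelper20.CS

variable {F : Type} [Field F] [Algebra ℂ F] {C : Curve F} {B : Type} [CommRing B] [Algebra ℂ B]
  {n k : ℕ}

private theorem det_mem_fn {U : Subalgebra ℂ F} {M : Matrix (Fin n) (Fin n) (B ⊗[ℂ] F)}
    (hM : Over U M) : M.det ∈ fn B U := by
  rw [Matrix.det_apply]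
  refine AddSubmonoid.sum_mem _ fun σ _ => ?_
  have h1 : ∏ i, M (σ i) i ∈ fn B U :=
    Finset.prod_induction _ (fun z => z ∈ fn B U) (fun _ _ ha hb => mul_mem_fn ha hb) one_mem_fn
      fun i _ => hM _ _
  rcases Int.units_eq_one_or (Equiv.Perm.sign σ) with h2 | h2
  · rw [h2, one_smul]
    exact h1
  · rw [h2, Units.neg_smul, one_smul]
    exact neg_mem_fn h1

private theorem det_inv_mul {R : Type} [CommRing R] (u : GL (Fin n) R) :
    u.val.det * (u⁻¹).val.det = 1 := by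
  rw [← Matrix.det_mul, ← Units.val_mul, mul_inv_cancel, Units.val_one, Matrix.det_one]

theorem sameDet_iso {X : CohSys C ℂ n k} {Y Y' : CohSys C B n k} (h : CohSys.SameDet X Y)
    (hi : CohSys.Iso Y Y') : CohSys.SameDet X Y' := by
  obtain ⟨u0, u1, v0, v1, hu0, hv0, e0, hu1, hv1, e1, hd⟩ := h
  obtain ⟨w0, w1, P, g0, g1, hg, -, -⟩ := hi
  have d0 := det_inv_mul w0
  have d1 := det_inv_mul w1
  have hg' := congrArg Matrix.det hg
  rw [Matrix.det_mul, Matrix.det_mul] at hg'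
  refine ⟨w0.val.det * u0, u1 * (w1⁻¹).val.det, (w0⁻¹).val.det * v0, v1 * w1.val.det,
    mul_mem_fn (det_mem_fn g0.1) hu0, mul_mem_fn (det_mem_fn g0.2) hv0, ?_,
    mul_mem_fn hu1 (det_mem_fn g1.2), mul_mem_fn hv1 (det_mem_fn g1.1), ?_, ?_⟩
  · linear_combination (w0.val.det * (w0⁻¹).val.det) * e0 + d0
  · linear_combination (w1.val.det * (w1⁻¹).val.det) * e1 + d1
  · linear_combination (-Y'.g.val.det) * d1 + (w1⁻¹).val.det * hg' +
      w0.val.det * (w1⁻¹).val.det * hd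

/-- The homomorphism to the dual numbers over `F` given by a tangent vector. -/
private noncomputable def psi (ρ : B →ₐ[ℂ] ℂ) (l : B →ₗ[ℂ] ℂ) (hl : IsTan ρ l) :
    B ⊗[ℂ] F →+* DualNumber F where
  toFun z := TrivSqZeroExt.inl (ev ρ z) + TrivSqZeroExt.inr (Dl l z)
  map_one' := by
    have h1 : Dl l (1 : B ⊗[ℂ] F) = 0 := by
      rw [Algebra.TensorProduct.one_def, Dl_tmul, hl.one, zero_smul]
    rw [map_one, h1, TrivSqZeroExt.inr_zero, add_zero, TrivSqZeroExt.inl_one]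
  map_mul' z w := by
    rw [Dl_mul hl, map_mul]
    ext
    · simp
    · simp
  map_zero' := by simp
  map_add' z w := by
    ext
    · simp
    · simp

private theorem psi_apply (ρ : B →ₐ[ℂ] ℂ) (l : B →ₗ[ℂ] ℂ) (hl : IsTan ρ l) (z : B ⊗[ℂ] F) :
    psi ρ l hl z = TrivSqZeroExt.inl (ev ρ z) + TrivSqZeroExt.inr (Dl l z) := rfl

theorem trace_mem {X : CohSys C ℂ n k} {Y : CohSys C B n k} (ρ : B →ₐ[ℂ] ℂ) (hY : Y.map ρ = X)
    (hd : CohSys.SameDet X Y) {l : B →ₗ[ℂ] ℂ} (hl : IsTan ρ l) (G : Matrix (Fin n) (Fin n) F)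
    (hG : Y.g.val.map (Dl l) = X.gF * G) : ∃ p ∈ C.U0, ∃ q ∈ C.U1, G.trace = p + q := by
  obtain ⟨u0, u1, v0, v1, hu0, hv0, e0, hu1, hv1, e1, hd⟩ := hd
  have hgF : Y.g.val.map (ev ρ) = X.gF := by
    rw [← hY]
    ext i j
    change ev ρ (Y.g.val i j) = ev (AlgHom.id ℂ ℂ) (bc ρ (Y.g.val i j))
    rw [ev_bc, AlgHom.id_comp]
  have hdet : X.gF.det ≠ 0 := by
    have h1 : IsUnit X.gF := by
      have h2 := X.g.isUnit.map (RingHom.mapMatrix (m := Fin n) (ev (F := F) (AlgHom.id ℂ ℂ)))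
      exact h2
    exact ((Matrix.isUnit_iff_isUnit_det _).1 h1).ne_zero
  -- the determinant of `Y.g`
  have hL : psi ρ l hl Y.g.val.det =
      TrivSqZeroExt.inl X.gF.det + TrivSqZeroExt.inr (X.gF.det * G.trace) := by
    have h1 : (psi ρ l hl).mapMatrix Y.g.val = (X.gF.map (TrivSqZeroExt.inlHom F F)) *
        (1 + (DualNumber.eps : DualNumber F) • G.map (TrivSqZeroExt.inlHom F F)) := by
      have h2 : (psi ρ l hl).mapMatrix Y.g.val = X.gF.map (TrivSqZeroExt.inlHom F F) +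
          (DualNumber.eps : DualNumber F) • (X.gF * G).map (TrivSqZeroExt.inlHom F F) := by
        rw [← hG]
        ext i j
        · simp [psi_apply, ← hgF]
        · simp [psi_apply, ← hgF]
      rw [h2, Matrix.map_mul, Matrix.mul_add, Matrix.mul_one, Matrix.mul_smul]
    have h3 : Matrix.trace (G.map (TrivSqZeroExt.inlHom F F)) =
        TrivSqZeroExt.inlHom F F G.trace := by
      rw [Matrix.trace, Matrix.trace, map_sum]
      rfl
    have h4 : (X.gF.map (TrivSqZeroExt.inlHom F F)).det = TrivSqZeroExt.inlHom F F X.gF.det :=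
      (RingHom.map_det _ _).symm
    rw [RingHom.map_det, h1, Matrix.det_mul, Matrix.det_one_add_smul, sq, DualNumber.eps_mul_eps,
      mul_zero, add_zero, h3, h4]
    ext
    · simp
    · simp
  have hbc : ∀ w : ℂ ⊗[ℂ] F, psi ρ l hl (bc (Algebra.ofId ℂ B) w) =
      TrivSqZeroExt.inl (ev (AlgHom.id ℂ ℂ) w) := by
    intro w
    have h1 : ev ρ (bc (Algebra.ofId ℂ B) w) = ev (AlgHom.id ℂ ℂ) w := by
      have hρ : ρ.comp (Algebra.ofId ℂ B) = AlgHom.id ℂ ℂ := by ext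
      rw [ev_bc, hρ]
    have h2 : Dl l (bc (Algebra.ofId ℂ B) w) = 0 := by
      clear h1
      induction w with
      | zero => simp
      | add x y hx hy => rw [map_add, map_add, hx, hy, add_zero]
      | tmul b u =>
        rw [bc_tmul, Dl_tmul, Algebra.ofId_apply, Algebra.algebraMap_eq_smul_one, map_smul,
          hl.one, smul_zero, zero_smul]
    rw [psi_apply, h1, h2, TrivSqZeroExt.inr_zero, add_zero]
  have hX : ev (AlgHom.id ℂ ℂ) X.g.val.det = X.gF.det := RingHom.map_det _ _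
  have hE := congrArg (psi ρ l hl) hd
  rw [hL, map_mul, map_mul, hbc, hX, psi_apply, psi_apply] at hE
  have E0 := congrArg TrivSqZeroExt.fst hE
  have E1 := congrArg TrivSqZeroExt.snd hE
  simp at E0 E1
  have a0 := congrArg (ev ρ) e0
  have a1 := congrArg (ev ρ) e1
  rw [map_mul, map_one] at a0 a1
  have E2 : ev ρ u0 * ev ρ u1 = 1 := by
    apply mul_left_cancel₀ hdet
    linear_combination -E0
  have E3 : ev ρ u1 = ev ρ v0 := by linear_combination (-ev ρ u1) * a0 + ev ρ v0 * E2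
  have E4 : ev ρ u0 = ev ρ v1 := by linear_combination (-ev ρ u0) * a1 + ev ρ v1 * E2
  refine ⟨Dl l u0 * ev ρ v0, C.U0.mul_mem (Dl_mem l hu0) (ev_mem ρ hv0),
    ev ρ v1 * Dl l u1, C.U1.mul_mem (ev_mem ρ hv1) (Dl_mem l hu1), ?_⟩
  apply mul_left_cancel₀ hdet
  rw [E1, E3, E4]
  ring

/-- The bound on first order deformations with constant determinant: in every family with special
fibre exactly `X`, constant determinant and no trivial tangent direction, any `N + 1` tangent vectors are linearly dependent. -/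
def TangentBoundD (X : CohSys C ℂ n k) (N : ℕ) : Prop :=
  ∀ (B : Type) [CommRing B] [Algebra ℂ B] (ρ : B →ₐ[ℂ] ℂ) (Y : CohSys C B n k),
    Y.map ρ = X → CohSys.SameDet X Y →
    (∀ (l : B →ₗ[ℂ] ℂ) (hl : IsTan ρ l),
      CohSys.Iso
        (Y.map (tanHom (DualNumber ℂ) DualNumber.eps DualNumber.eps_mul_eps ρ 0 (IsTan.zero ρ)))
        (Y.map (tanHom (DualNumber ℂ) DualNumber.eps DualNumber.eps_mul_eps ρ l hl)) → l = 0) →
    ∀ f : Fin (N + 1) → (B →ₗ[ℂ] ℂ), (∀ i, IsTan ρ (f i)) → ¬ LinearIndependent ℂ f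

theorem localDim_le_of {X : CohSys C ℂ n k} {N : ℕ} (hX : TangentBoundD X N) :
    X.localDim ≤ N := by
  unfold CohSys.localDim
  refine iSup_le fun R => iSup_le fun _ => iSup_le fun _ => iSup_le fun _ => iSup_le fun _ =>
    iSup_le fun hπ => iSup_le fun h𝓕 => ?_
  obtain ⟨π⟩ := hπ
  obtain ⟨𝓕⟩ := h𝓕
  set m := IsLocalRing.maximalIdeal R with hm
  have hker : ∀ a : R, a ∈ m ↔ π a = 0 := by
    intro a
    constructor
    · exact fun ha => algHom_eq_zero π ha
    · intro ha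
      rw [hm, IsLocalRing.mem_maximalIdeal, mem_nonunits_iff]
      intro hu
      have := hu.map π
      rw [ha] at this
      exact not_isUnit_zero this
  have hπ2 : ∀ a ∈ m ^ (1 + 1), π a = 0 :=
    fun a ha => (hker a).1 (Ideal.pow_le_self (by norm_num) ha)
  have hπ1 : ∀ a ∈ m ^ (0 + 1), π a = 0 :=
    fun a ha => (hker a).1 (Ideal.pow_le_self (by norm_num) ha)
  let ρ : (R ⧸ m ^ (1 + 1)) →ₐ[ℂ] ℂ := Ideal.Quotient.liftₐ _ π hπ2
  let ρ0 : (R ⧸ m ^ (0 + 1)) →ₐ[ℂ] ℂ := Ideal.Quotient.liftₐ _ π hπ1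
  have hρ : ∀ a : R, ρ (Ideal.Quotient.mk _ a) = π a := fun a => rfl
  have hsq : ∀ a b : R ⧸ m ^ (1 + 1), ρ a = 0 → ρ b = 0 → a * b = 0 := by
    intro a b ha hb
    obtain ⟨a, rfl⟩ := Ideal.Quotient.mk_surjective a
    obtain ⟨b, rfl⟩ := Ideal.Quotient.mk_surjective b
    rw [hρ, ← hker] at ha hb
    rw [← map_mul, Ideal.Quotient.eq_zero_iff_mem, show 1 + 1 = 2 from rfl, sq]
    exact Ideal.mul_mem_mul ha hb
  have hi : CohSys.Iso ((𝓕.fam 1).map ρ) X := by
    obtain ⟨Y0, hY0, hi0⟩ := 𝓕.compat 0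
    obtain ⟨Y1, hY1, hi1⟩ := 𝓕.special ρ0
    rw [CohSys.isPullback_iff] at hY0 hY1
    subst hY0
    subst hY1
    have h1 := hi0.map ρ0
    rw [CohSys.map_map] at h1
    have h2 := h1.trans hi1
    have h3 : ρ0.comp (CohSys.trunc R 0) = ρ := by
      apply Ideal.Quotient.algHom_ext
      ext
      rfl
    rw [h3] at h2
    exact h2
  obtain ⟨Y, hY, hYX⟩ := CohSys.exists_normalise X (𝓕.fam 1) ρ hi
  have hunr : ∀ (l : (R ⧸ m ^ (1 + 1)) →ₗ[ℂ] ℂ) (hl : IsTan ρ l),
      CohSys.Iso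
        (Y.map (tanHom (DualNumber ℂ) DualNumber.eps DualNumber.eps_mul_eps ρ 0 (IsTan.zero ρ)))
        (Y.map (tanHom (DualNumber ℂ) DualNumber.eps DualNumber.eps_mul_eps ρ l hl)) →
        l = 0 := by
    intro l hl h
    let t0 := tanHom (DualNumber ℂ) DualNumber.eps DualNumber.eps_mul_eps ρ 0 (IsTan.zero ρ)
    let t1 := tanHom (DualNumber ℂ) DualNumber.eps DualNumber.eps_mul_eps ρ l hl
    have h' : CohSys.Iso ((𝓕.fam 1).map t0) ((𝓕.fam 1).map t1) :=
      ((hY.map t0).trans h).trans (hY.map t1).symm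
    have h1 : t0 = t1 := 𝓕.unramified t0 t1
      ⟨_, _, (CohSys.isPullback_iff _ _ _).2 rfl, (CohSys.isPullback_iff _ _ _).2 rfl, h'⟩
    exact CohSys.eq_zero_of_tanHom_eq _ _ _ CohSys.eps_ne_zero ρ l hl h1
  have hbound := hX _ ρ Y hYX (sameDet_iso (𝓕.det 1) hY) hunr
  have hsp : (IsLocalRing.maximalIdeal R).spanFinrank ≤ N := by
    refine spanFinrank_le π hker ρ hρ N fun w hw hli => ?_
    obtain ⟨f, hf1, hf⟩ := CohSys.exists_functionals ρ w hw hli
    exact hbound f (fun i => CohSys.isTan_of_sq_zero ρ hsq (f i) (hf1 i)) hf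
  exact (ringKrullDim_le_spanFinrank_maximalIdeal R).trans (by exact_mod_cast hsp)

end Pool.Agent.CSG
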