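import Pool.Agent.CSG.Fam

/-!
# Isomorphic members of the family

Compare `Hyp.fam_iso` (`Hhelper20/CS/Hyp9.lean`).  Let `u0`, `u1`, `P` be the isomorphism.  Since the gluing matrices are `x ^ a`, `u0` and `u1` have the same `ev ρ` and `Dl l`, so these are
constant matrices `α`, `β` (`Hyp.eq_const`).  With `P0 = ρ P`, `P1 = l P` the relation `s0' = u0 s0 P` gives, comparing coefficients (`pol_injective`),
`c j = ∑ j', (α c_{j'}) P0 j' j` and `l (s' j) = ∑ j', (β c_{j'} + α l (s_{j'})) P0 j' j + (α c_{j'}) P1 j' j`.  As `P0` is invertible, `α c_j` is in the span of the `c_j`, so `α = r • 1` by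
`bnd_simple`, then `r c P0 = c`, `P0 = r⁻¹`, `r ≠ 0` (independence; `0 < k`), and `l s' - l s = actL c (r⁻¹ • β) + actR c (r • P1)`.
-/

open TensorProduct

namespace Pool.Agent.CSG

open Pool.Agent.Hhelper20.CS

variable {F : Type} [Field F] [Algebra ℂ F] {m : ℕ} (h : Hyp F m) {k n a : ℕ}
  {B : Type} [CommRing B] [Algebra ℂ B]

/-- The matrix of sections with coefficients `c`. -/
private noncomputable def Sm (c : Co ℂ k n a) : Matrix (Fin n) (Fin k) F :=
  Matrix.of fun b j => pol h a (c j b)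

private theorem Sm_inj {c c' : Co ℂ k n a} (e : Sm h c = Sm h c') : c = c' := by
  funext j b
  exact pol_injective h (congrFun (congrFun e b) j)

private theorem Sm_add (c c' : Co ℂ k n a) : Sm h c + Sm h c' = Sm h (c + c') := by
  ext b j
  exact (map_add (pol h a) (c j b) (c' j b)).symm

private theorem Sm_actL (c : Co ℂ k n a) (M : Matrix (Fin n) (Fin n) ℂ) :
    M.map (algebraMap ℂ F) * Sm h c = Sm h (actL c M) := by
  ext b j
  have e : (actL c M) j b = ∑ b', M b b' • c j b' := by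
    funext i
    simp only [actL, LinearMap.coe_mk, AddHom.coe_mk, Finset.sum_apply, Pi.smul_apply, smul_eq_mul]
  change ∑ b', algebraMap ℂ F (M b b') * pol h a (c j b') = pol h a ((actL c M) j b)
  rw [e, map_sum]
  refine Finset.sum_congr rfl fun b' _ => ?_
  rw [map_smul, Algebra.smul_def]

private theorem Sm_actR (c : Co ℂ k n a) (M : Matrix (Fin k) (Fin k) ℂ) :
    Sm h c * M.map (algebraMap ℂ F) = Sm h (actR c M) := by
  ext b j
  have e : (actR c M) j b = ∑ j', M j' j • c j' b := by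
    funext i
    simp only [actR, LinearMap.coe_mk, AddHom.coe_mk, Finset.sum_apply, Pi.smul_apply, smul_eq_mul]
    exact Finset.sum_congr rfl fun _ _ => mul_comm _ _
  change ∑ j', pol h a (c j' b) * algebraMap ℂ F (M j' j) = pol h a ((actR c M) j b)
  rw [e, map_sum]
  refine Finset.sum_congr rfl fun b' _ => ?_
  rw [map_smul, Algebra.smul_def, mul_comm]

private theorem actR_row (c : Co ℂ k n a) (M : Matrix (Fin k) (Fin k) ℂ) (j : Fin k) :
    actR c M j = ∑ j', M j' j • c j' := by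
  funext b i
  simp only [actR, LinearMap.coe_mk, AddHom.coe_mk, Finset.sum_apply, Pi.smul_apply, smul_eq_mul]
  exact Finset.sum_congr rfl fun _ _ => mul_comm _ _

private theorem actR_actR (c : Co ℂ k n a) (M N : Matrix (Fin k) (Fin k) ℂ) :
    actR (actR c M) N = actR c (M * N) := by
  funext j b i
  simp only [actR, LinearMap.coe_mk, AddHom.coe_mk, Matrix.mul_apply, Finset.sum_mul,
    Finset.mul_sum]
  rw [Finset.sum_comm]
  refine Finset.sum_congr rfl fun _ _ => Finset.sum_congr rfl fun _ _ => ?_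
  ring

private theorem actR_one (c : Co ℂ k n a) : actR c 1 = c := by
  funext j
  rw [actR_row, Finset.sum_eq_single j]
  · rw [Matrix.one_apply_eq, one_smul]
  · intro j' _ hj
    rw [Matrix.one_apply_ne hj, zero_smul]
  · intro hj
    exact absurd (Finset.mem_univ j) hj

private theorem actL_one (c : Co ℂ k n a) : actL c 1 = c := by
  funext j b i
  simp only [actL, LinearMap.coe_mk, AddHom.coe_mk]
  rw [Finset.sum_eq_single b]
  · rw [Matrix.one_apply_eq, one_mul]
  · intro b' _ hb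
    rw [Matrix.one_apply_ne hb.symm, zero_mul]
  · intro hb
    exact absurd (Finset.mem_univ b) hb

private theorem actR_smul' (c : Co ℂ k n a) (r : ℂ) (M : Matrix (Fin k) (Fin k) ℂ) :
    actR (r • c) M = r • actR c M := by
  funext j
  rw [actR_row, Pi.smul_apply, actR_row, Finset.smul_sum]
  refine Finset.sum_congr rfl fun _ _ => ?_
  rw [Pi.smul_apply, smul_comm]

private theorem actR_add' (c c' : Co ℂ k n a) (M : Matrix (Fin k) (Fin k) ℂ) :
    actR (c + c') M = actR c M + actR c' M := by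
  funext j
  rw [actR_row, Pi.add_apply, actR_row, actR_row, ← Finset.sum_add_distrib]
  refine Finset.sum_congr rfl fun _ _ => ?_
  rw [Pi.add_apply, smul_add]

private theorem actR_inj {c : Co ℂ k n a} (hc : LinearIndependent ℂ c)
    {M N : Matrix (Fin k) (Fin k) ℂ} (e : actR c M = actR c N) : M = N := by
  ext i j
  have h1 : ∑ j', (M j' j - N j' j) • c j' = 0 := by
    have h2 := congrFun e j
    rw [actR_row, actR_row] at h2
    simp only [sub_smul, Finset.sum_sub_distrib, h2, sub_self]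
  exact sub_eq_zero.1 (Fintype.linearIndependent_iff.1 hc _ h1 i)

theorem gfam_iso (hm : 0 < m) {c : Co ℂ k n a} (hc : Bnd c) (hk : n < k) (ρ : B →ₐ[ℂ] ℂ)
    (l : B →ₗ[ℂ] ℂ) (hl : IsTan ρ l) (s s' : Co B k n a) (hs : Ind s) (hs' : Ind s')
    (h1 : ∀ j b i, ρ (s j b i) = c j b i) (h2 : ∀ j b i, ρ (s' j b i) = c j b i)
    (hi : CohSys.Iso (gfam h hm s hs) (gfam h hm s' hs')) :
    (fun j b i => l (s' j b i) - l (s j b i) : Co ℂ k n a) ∈ Rc c := by
  obtain ⟨u0, u1, P, g0, g1, hg, hs0, -⟩ := hi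
  have hxa : h.x ^ (a : ℤ) ≠ 0 := zpow_ne_zero _ h.x_ne
  -- the two frame changes agree
  have hgab : ∀ b b', (1 : B) ⊗ₜ[ℂ] (h.x ^ (a : ℤ)) * u1.val b b' =
      u0.val b b' * (1 : B) ⊗ₜ[ℂ] (h.x ^ (a : ℤ)) := by
    intro b b'
    have h1 := congrArg (fun M : Matrix (Fin n) (Fin n) (B ⊗[ℂ] F) => M b b') hg
    change ((ggM h n a B).val * u1.val) b b' = (u0.val * (ggM h n a B).val) b b' at h1
    rw [ggM_val, Matrix.diagonal_mul, Matrix.mul_diagonal] at h1
    exact h1
  have hA : ∀ b b', ev ρ (u0.val b b') = ev ρ (u1.val b b') := by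
    intro b b'
    have h1 := congrArg (ev ρ) (hgab b b')
    simp only [map_mul, ev_tmul, map_one, one_smul] at h1
    rw [mul_comm (h.x ^ (a : ℤ))] at h1
    exact (mul_right_cancel₀ hxa h1).symm
  have hB : ∀ b b', Dl l (u0.val b b') = Dl l (u1.val b b') := by
    intro b b'
    have h1 := congrArg (Dl l) (hgab b b')
    simp only [Dl_mul hl, ev_tmul, Dl_tmul, map_one, one_smul, hl.one, zero_smul,
      zero_mul, mul_zero, add_zero, zero_add] at h1
    rw [mul_comm (h.x ^ (a : ℤ))] at h1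
    exact (mul_right_cancel₀ hxa h1).symm
  have hα : ∀ b b', ∃ c : ℂ, ev ρ (u0.val b b') = algebraMap ℂ F c := by
    intro b b'
    exact h.eq_const hm (ev_mem ρ (g0.1 b b')) (by rw [hA b b']; exact ev_mem ρ (g1.1 b b'))
  have hβ : ∀ b b', ∃ c : ℂ, Dl l (u0.val b b') = algebraMap ℂ F c := by
    intro b b'
    exact h.eq_const hm (Dl_mem l (g0.1 b b')) (by rw [hB b b']; exact Dl_mem l (g1.1 b b'))
  choose α hα using hα
  choose β hβ using hβ
  have Eα : u0.val.map (ev ρ) = (Matrix.of α).map (algebraMap ℂ F) := by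
    ext b b'; exact hα b b'
  have Eβ : u0.val.map (Dl l) = (Matrix.of β).map (algebraMap ℂ F) := by
    ext b b'; exact hβ b b'
  have ES : ∀ (s : Co B k n a) (hs : Ind s), (∀ j b i, ρ (s j b i) = c j b i) →
      (gfam h hm s hs).s0.map (ev ρ) = Sm h c := by
    intro s hs h1
    ext b j
    rw [Matrix.map_apply, gfam_s0, ev_plB]
    simp only [h1]
    rfl
  have ED : ∀ (s : Co B k n a) (hs : Ind s),
      (gfam h hm s hs).s0.map (Dl l) = Sm h fun j b i => l (s j b i) := by
    intro s hs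
    ext b j
    rw [Matrix.map_apply, gfam_s0, Dl_plB]
    rfl
  let P0 : Matrix (Fin k) (Fin k) ℂ := P.val.map ρ
  let P1 : Matrix (Fin k) (Fin k) ℂ := P.val.map l
  let R : Matrix (Fin k) (Fin k) ℂ := (P⁻¹).val.map ρ
  have hPR : P0 * R = 1 := by
    have h1 := congrArg (fun M : Matrix _ _ _ => M.map ρ) (P.mul_inv)
    simp only [Matrix.map_mul, Matrix.map_one _ (map_zero ρ) (map_one ρ)] at h1
    exact h1
  have EP0 : (P.val.map (inL F B)).map (ev ρ) = P0.map (algebraMap ℂ F) := by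
    ext i j
    exact ev_inL ρ _
  have EP1 : (P.val.map (inL F B)).map (Dl l) = P1.map (algebraMap ℂ F) := by
    ext i j
    exact Dl_inL l _
  -- zeroth order
  have Z0 := congrArg (fun M : Matrix _ _ _ => M.map (ev ρ)) hs0
  simp only [Matrix.map_mul] at Z0
  rw [ES _ _ h2, ES _ _ h1, Eα, EP0, Sm_actL, Sm_actR] at Z0
  -- first order
  have Z1 := congrArg (fun M : Matrix _ _ _ => M.map (Dl l)) hs0
  simp only [map_Dl_mul hl, Matrix.map_mul] at Z1
  rw [ED, ED, ES _ _ h1, Eα, Eβ, EP0, EP1, Sm_actL, Sm_actL, Sm_actL, Sm_actR, Sm_add, Sm_actR,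
    Sm_add] at Z1
  have Y0 := Sm_inj h Z0
  have Y1 := Sm_inj h Z1
  have hα1 : actL c (Matrix.of α) = actR c R := by
    conv_rhs => rw [Y0]
    rw [actR_actR, hPR, actR_one]
  obtain ⟨r, hr⟩ := bnd_simple hc hk (A := Matrix.of α) (by
    intro j
    have e : (fun b i => ∑ b', (Matrix.of α) b b' * c j b' i) = actR c R j := congrFun hα1 j
    rw [e, actR_row]
    exact Submodule.sum_mem _ fun j' _ => Submodule.smul_mem _ _ (Submodule.subset_span ⟨j', rfl⟩))
  have hL : ∀ c' : Co ℂ k n a, actL c' (Matrix.of α) = r • c' := by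
    intro c'
    rw [hr, map_smul, actL_one]
  rw [hL, actR_smul'] at Y0
  have hr0 : r ≠ 0 := by
    intro h0
    rw [h0, zero_smul] at Y0
    exact hc.indep.ne_zero (⟨0, by omega⟩ : Fin k) (congrFun Y0 _)
  have hP0 : P0 = r⁻¹ • (1 : Matrix (Fin k) (Fin k) ℂ) := by
    have h3 : r • P0 = 1 := by
      apply actR_inj hc.indep
      rw [map_smul, ← Y0, actR_one]
    rw [← h3, smul_smul, inv_mul_cancel₀ hr0, one_smul]
  rw [hL, hL, hP0, map_smul, actR_one, actR_smul'] at Y1
  rw [mem_Rc]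
  refine ⟨r⁻¹ • Matrix.of β, r • P1, ?_⟩
  have h3 : (fun j b i => l (s' j b i) - l (s j b i) : Co ℂ k n a) =
      (fun j b i => l (s' j b i)) - fun j b i => l (s j b i) := rfl
  rw [h3, Y1, map_smul, map_smul, smul_add, smul_smul, inv_mul_cancel₀ hr0, one_smul]
  abel

end Pool.Agent.CSG
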