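import Pool.Agent.CSG.Main

/-!
# The bound is attained
-/

namespace Pool.Agent.CSG

open Pool.Agent.Hhelper20.CS

theorem criterion {n k a g : ℕ} (hn : 1 ≤ n) (hk : n + 1 < k) (ha : (k - n - 1) * n + 1 ≤ a)
    (hg : n * a ≤ g) :
    ∃ (F : Type) (_ : Field F) (_ : Algebra ℂ F) (C : Curve F) (X : CohSys C ℂ n k) (d : ℕ),
      C.genus = g ∧ X.deg = 2 * n * a ∧ X.h1det = g - n * a ∧
      (∀ α : ℝ, 0 < α → α * k ≤ 1 → X.IsStable α) ∧ X.localDim = (d : ℕ) ∧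
      ((d : ℤ) = beta C.genus n X.deg k - C.genus + X.h1det * k.choose n ↔
        (g * (k.choose n + n ^ 2 - n * k - 1) : ℤ) = n * a * (k.choose n - k)) := by
  obtain ⟨F, _, _, C, X, d, h1, h2, h3, h4, h5, h6⟩ := main hn (by omega) ha hg
  refine ⟨F, _, _, C, X, d, h1, h2, h3, h4, h5, ?_⟩
  have e : ((X.h1det : ℕ) : ℤ) = g - n * a := by
    rw [h3, Nat.cast_sub hg]
    push_cast
    ring
  rw [h6, h1, h2, e]
  exact num_iff n k a g (k.choose n)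

theorem attained {n k : ℕ} (hn : 1 ≤ n) (hk : n + 1 < k) (δ : ℕ) :
    ∃ (F : Type) (_ : Field F) (_ : Algebra ℂ F) (C : Curve F) (X : CohSys C ℂ n k) (d : ℕ),
      2 ≤ C.genus ∧ δ ≤ X.h1det ∧
      (∀ α : ℝ, 0 < α → α * k ≤ 1 → X.IsStable α) ∧ X.localDim = (d : ℕ) ∧
      (d : ℤ) = beta C.genus n X.deg k - C.genus + X.h1det * k.choose n := by
  obtain ⟨a, g, h1, h2, h3, h4, h5⟩ := num_exists hn hk δ ((k - n - 1) * n + 1)
  obtain ⟨F, _, _, C, X, d, e1, e2, e3, e4, e5, e6⟩ := criterion hn hk h1 (by omega : n * a ≤ g)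
  refine ⟨F, _, _, C, X, d, by omega, by omega, e4, e5, e6.2 h5⟩

end Pool.Agent.CSG
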