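import Pool.Agent.Hhelper20.CS.Hyp10

/-!
# Power series rings

`exists_ring`: induction on `D` (iterated `PowerSeries`; see `PS2`, `ps2_decomp`, `ps2_dim` in `Hhelper20/CS/Hyp10.lean`): `R' = PowerSeries R`, the new variable is `PowerSeries.X`, the old
ones are `PowerSeries.C (t i)`, `ringKrullDim_succ_le_ringKrullDim_powerseries`.
`hom_ext`: see `ps2_hom_ext`.
-/

namespace Pool.Agent.CSG

/-- The ring `R` has `D` parameters `t` and dimension at least `D`. -/
structure Par (R : Type) [CommRing R] [Algebra ℂ R] [IsLocalRing R] (D : ℕ) where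
  /-- the residue map -/
  π : R →ₐ[ℂ] ℂ
  /-- the parameters -/
  t : Fin D → R
  mem : ∀ i, t i ∈ IsLocalRing.maximalIdeal R
  dim : (D : WithBot ℕ∞) ≤ ringKrullDim R
  dec : ∀ r : R, ∃ (c : ℂ) (u : Fin D → R), r = algebraMap ℂ R c + ∑ i, t i * u i

/-- No parameters: the complex numbers. -/
noncomputable def Par.zero : Par ℂ 0 where
  π := AlgHom.id ℂ ℂ
  t := fun i => i.elim0
  mem := fun i => i.elim0
  dim := by
    rw [ringKrullDim_eq_zero_of_field]
    exact le_of_eq rfl
  dec := fun r => ⟨r, fun i => i.elim0, by simp⟩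

/-- One more parameter: power series. -/
noncomputable def Par.succ {R : Type} [CommRing R] [Algebra ℂ R] [IsLocalRing R] {D : ℕ}
    (p : Par R D) : Par (PowerSeries R) (D + 1) where
  π := { (p.π : R →+* ℂ).comp (PowerSeries.constantCoeff (R := R)) with
      commutes' := fun r => by
        change p.π (PowerSeries.constantCoeff (algebraMap ℂ (PowerSeries R) r)) = r
        rw [PowerSeries.algebraMap_apply]
        simp }
  t := Fin.cases PowerSeries.X (fun i => PowerSeries.C (p.t i))
  mem := by
    intro i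
    rw [IsLocalRing.mem_maximalIdeal, mem_nonunits_iff]
    intro hu
    have h1 := hu.map (PowerSeries.constantCoeff (R := R))
    induction i using Fin.cases with
    | zero =>
      rw [Fin.cases_zero, PowerSeries.constantCoeff_X] at h1
      exact not_isUnit_zero h1
    | succ i =>
      rw [Fin.cases_succ, PowerSeries.constantCoeff_C] at h1
      exact (IsLocalRing.mem_maximalIdeal _).1 (p.mem i) h1
  dim := by
    refine le_trans ?_ (ringKrullDim_succ_le_ringKrullDim_powerseries (R := R))
    have h := p.dim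
    rw [Nat.cast_add, Nat.cast_one]
    gcongr
  dec := by
    intro r
    obtain ⟨c, u, hu⟩ := p.dec (PowerSeries.constantCoeff r)
    have h1 := PowerSeries.eq_X_mul_shift_add_const r
    refine ⟨c, Fin.cases (PowerSeries.mk fun q => PowerSeries.coeff (q + 1) r)
      (fun i => PowerSeries.C (u i)), ?_⟩
    have h3 : algebraMap ℂ (PowerSeries R) c = PowerSeries.C (algebraMap ℂ R c) := by
      rw [PowerSeries.algebraMap_apply]
    rw [Fin.sum_univ_succ]
    simp only [Fin.cases_zero, Fin.cases_succ]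
    rw [h3]
    have h4 : PowerSeries.C (PowerSeries.constantCoeff r) =
        PowerSeries.C (algebraMap ℂ R c) + ∑ i, PowerSeries.C (p.t i) * PowerSeries.C (u i) := by
      rw [hu, map_add, map_sum]
      simp only [map_mul]
    linear_combination h1 + h4

theorem exists_ring (D : ℕ) : ∃ (R : Type) (_ : CommRing R) (_ : Algebra ℂ R) (_ : IsLocalRing R)
    (_ : IsNoetherianRing R), Nonempty (Par R D) := by
  induction D with
  | zero => exact ⟨ℂ, inferInstance, inferInstance, inferInstance, inferInstance, ⟨Par.zero⟩⟩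
  | succ D ih =>
    obtain ⟨R, i1, i2, i3, i4, ⟨p⟩⟩ := ih
    exact ⟨PowerSeries R, inferInstance, inferInstance, inferInstance, inferInstance, ⟨p.succ⟩⟩

/-- Homomorphisms are determined by the images of the parameters. -/
theorem Par.hom_ext {R : Type} [CommRing R] [Algebra ℂ R] [IsLocalRing R] {D : ℕ} (p : Par R D)
    {A : Type} [CommRing A] [Algebra ℂ A]
    (f g : (R ⧸ IsLocalRing.maximalIdeal R ^ (1 + 1)) →ₐ[ℂ] A)
    (h : ∀ i, f (Ideal.Quotient.mk _ (p.t i)) = g (Ideal.Quotient.mk _ (p.t i))) : f = g := by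
  apply Ideal.Quotient.algHom_ext
  apply AlgHom.ext
  intro r
  obtain ⟨a, u, rfl⟩ := p.dec r
  choose b w hb using fun i => p.dec (u i)
  have h2 : ∀ i, Ideal.Quotient.mk (IsLocalRing.maximalIdeal R ^ (1 + 1)) (p.t i * u i) =
      algebraMap ℂ _ (b i) * Ideal.Quotient.mk _ (p.t i) := by
    intro i
    have h4 : algebraMap ℂ (R ⧸ IsLocalRing.maximalIdeal R ^ (1 + 1)) (b i) =
      Ideal.Quotient.mk (IsLocalRing.maximalIdeal R ^ (1 + 1)) (algebraMap ℂ R (b i)) := rfl
    rw [h4, ← map_mul, ← sub_eq_zero, ← map_sub, Ideal.Quotient.eq_zero_iff_mem,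
      show 1 + 1 = 2 from rfl, sq]
    have h5 : p.t i * u i - algebraMap ℂ R (b i) * p.t i = p.t i * ∑ j, p.t j * w i j := by
      rw [hb i]
      ring
    rw [h5]
    exact Ideal.mul_mem_mul (p.mem i)
      (Ideal.sum_mem _ fun j _ => Ideal.mul_mem_right _ _ (p.mem j))
  have h3 : Ideal.Quotient.mk (IsLocalRing.maximalIdeal R ^ (1 + 1))
      (algebraMap ℂ R a + ∑ i, p.t i * u i) =
      algebraMap ℂ _ a + ∑ i, algebraMap ℂ _ (b i) * Ideal.Quotient.mk _ (p.t i) := by
    rw [map_add, map_sum, Finset.sum_congr rfl fun i _ => h2 i]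
    rfl
  change f (Ideal.Quotient.mk _ _) = g (Ideal.Quotient.mk _ _)
  rw [h3]
  simp only [map_add, map_sum, map_mul, AlgHom.commutes, h]

end Pool.Agent.CSG
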