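import Pool.Agent.CSG.FamIso
import Pool.Agent.CSG.Ring

/-!
# The formal family

Compare `Hhelper20/CS/Hyp10.lean`.  Let `D = finrank (Co ℂ k n a ⧸ Rc c)`, `κ : Fin D → Co ℂ k n a` lifts of a basis of the quotient, `R` with `p : Par R D` as in `exists_ring`.  The family over
`R ⧸ m ^ (j + 1)` has coefficients `c + ∑ i, t i κ i`.  All homomorphisms `R ⧸ m ^ (j + 1) → ℂ` kill the `t i` (`algHom_eq_zero`), so `Ind` holds; `det`: `gfam_det`;
`compat`, `special`: `gfam_map`, equality of the families, `Iso.refl`.  `unramified`: `t, t' : R ⧸ m ^ 2 → DualNumber ℂ`; `gfam_iso` with `ρ` the first and `l` the second projection of `DualNumber ℂ` gives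
`∑ i, (l (t' (t i)) - l (t (t i))) • κ i ∈ Rc c`, so the coefficients vanish and `t = t'` by `Par.hom_ext`.
-/

open TensorProduct

namespace Pool.Agent.CSG

open Pool.Agent.Hhelper20.CS

variable {F : Type} [Field F] [Algebra ℂ F] {m : ℕ} (h : Hyp F m) {k n a : ℕ}

/-- The coefficients `c + ∑ i, t i κ i`. -/
private noncomputable def fco {B : Type} [CommRing B] [Algebra ℂ B] {D : ℕ} (c : Co ℂ k n a)
    (κ : Fin D → Co ℂ k n a) (t : Fin D → B) : Co B k n a := fun j b i =>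
  algebraMap ℂ B (c j b i) + ∑ d, t d * algebraMap ℂ B (κ d j b i)

private theorem fco_map {B B' : Type} [CommRing B] [Algebra ℂ B] [CommRing B'] [Algebra ℂ B']
    {D : ℕ} (c : Co ℂ k n a) (κ : Fin D → Co ℂ k n a) (t : Fin D → B) (φ : B →ₐ[ℂ] B') :
    (fun j b i => φ (fco c κ t j b i) : Co B' k n a) = fco c κ fun d => φ (t d) := by
  funext j b i
  simp only [fco, map_add, map_sum, map_mul, AlgHom.commutes]

private theorem fco_ev {B : Type} [CommRing B] [Algebra ℂ B] {D : ℕ} (c : Co ℂ k n a)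
    (κ : Fin D → Co ℂ k n a) (t : Fin D → B) (ρ : B →ₐ[ℂ] ℂ) (ht : ∀ d, ρ (t d) = 0) :
    (fun j b i => ρ (fco c κ t j b i) : Co ℂ k n a) = c := by
  funext j b i
  simp only [fco, map_add, map_sum, map_mul, AlgHom.commutes, ht, zero_mul,
    Finset.sum_const_zero, add_zero]
  rfl

private theorem fco_ind {B : Type} [CommRing B] [Algebra ℂ B] {D : ℕ} {c : Co ℂ k n a}
    (hc : LinearIndependent ℂ c) (κ : Fin D → Co ℂ k n a) (t : Fin D → B)
    (ht : ∀ (ρ : B →ₐ[ℂ] ℂ) d, ρ (t d) = 0) : Ind (fco c κ t) := by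
  intro ρ
  rw [fco_ev c κ t ρ (ht ρ)]
  exact hc

private theorem fco_zero {D : ℕ} (c : Co ℂ k n a) (κ : Fin D → Co ℂ k n a) :
    fco c κ (fun _ => (0 : ℂ)) = c := by
  funext j b i
  simp only [fco, zero_mul, Finset.sum_const_zero, add_zero]
  rfl

private theorem gfam_congr {B : Type} [CommRing B] [Algebra ℂ B] (hm : 0 < m) {s s' : Co B k n a}
    (e : s = s') (hs : Ind s) (hs' : Ind s') : gfam h hm s hs = gfam h hm s' hs' := by
  subst e
  rfl

private theorem par_zero {R : Type} [CommRing R] [Algebra ℂ R] [IsLocalRing R] {D : ℕ}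
    (p : Par R D) (j : ℕ) (ρ : (R ⧸ IsLocalRing.maximalIdeal R ^ (j + 1)) →ₐ[ℂ] ℂ) (d : Fin D) :
    ρ (Ideal.Quotient.mk _ (p.t d)) = 0 :=
  algHom_eq_zero (ρ.comp (Ideal.Quotient.mkₐ ℂ _)) (p.mem d)

/-- The unramified formal family. -/
private noncomputable def ffam (hm : 0 < m) {c : Co ℂ k n a} (hc : Bnd c) (hk : n < k) {R : Type}
    [CommRing R] [Algebra ℂ R] [IsLocalRing R] {D : ℕ} (p : Par R D) (κ : Fin D → Co ℂ k n a)
    (hκ : ∀ z : Fin D → ℂ, ∑ d, z d • κ d ∈ Rc c → z = 0) :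
    CohSys.FormalFamily (gfam h hm c (Ind.of hc.indep)) R where
  fam := fun j => gfam h hm (fco c κ fun d => Ideal.Quotient.mk _ (p.t d))
    (fco_ind hc.indep κ _ fun ρ d => par_zero p j ρ d)
  det := fun j => gfam_det h hm c _ _ _
  compat := by
    intro j
    refine ⟨_, (CohSys.isPullback_iff _ _ _).2 rfl, ?_⟩
    rw [gfam_map]
    rw [gfam_congr h hm (fco_map c κ _ (CohSys.trunc R j)) _
      (fco_ind hc.indep κ _ fun ρ d => par_zero p j ρ d)]
    exact CohSys.Iso.refl _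
  special := by
    intro ρ
    refine ⟨_, (CohSys.isPullback_iff _ _ _).2 rfl, ?_⟩
    rw [gfam_map]
    rw [gfam_congr h hm (fco_ev c κ _ ρ fun d => par_zero p 0 ρ d) _ (Ind.of hc.indep)]
    exact CohSys.Iso.refl _
  unramified := by
    rintro t t' ⟨Y, Y', hY, hY', hi⟩
    rw [CohSys.isPullback_iff] at hY hY'
    rw [hY, hY', gfam_map, gfam_map] at hi
    let ρ : DualNumber ℂ →ₐ[ℂ] ℂ := TrivSqZeroExt.fstHom ℂ ℂ ℂ
    let l : DualNumber ℂ →ₗ[ℂ] ℂ := TrivSqZeroExt.sndHom ℂ ℂ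
    have hl : IsTan ρ l := by
      intro a b
      change (a * b).snd = a.fst * b.snd + a.snd * b.fst
      rw [TrivSqZeroExt.snd_mul]
      simp
    have hz : ∀ (τ : (R ⧸ IsLocalRing.maximalIdeal R ^ (1 + 1)) →ₐ[ℂ] DualNumber ℂ) (d : Fin D),
        ρ (τ (Ideal.Quotient.mk _ (p.t d))) = 0 := fun τ d => par_zero p 1 (ρ.comp τ) d
    have hzz : ∀ (τ : (R ⧸ IsLocalRing.maximalIdeal R ^ (1 + 1)) →ₐ[ℂ] DualNumber ℂ)
        (j : Fin k) (b : Fin n) (i : Fin (a + 1)),
        ρ (τ (fco c κ (fun d => Ideal.Quotient.mk _ (p.t d)) j b i)) = c j b i := fun τ j b i =>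
      congrFun (congrFun (congrFun (fco_ev c κ _ (ρ.comp τ) fun d => hz τ d) j) b) i
    have key := gfam_iso h hm hc hk ρ l hl _ _ _ _ (hzz t) (hzz t') hi
    have e1 : ∀ (τ : (R ⧸ IsLocalRing.maximalIdeal R ^ (1 + 1)) →ₐ[ℂ] DualNumber ℂ)
        (j : Fin k) (b : Fin n) (i : Fin (a + 1)),
        l (τ (fco c κ (fun d => Ideal.Quotient.mk _ (p.t d)) j b i)) =
          ∑ d, l (τ (Ideal.Quotient.mk _ (p.t d))) * κ d j b i := by
      intro τ j b i
      simp only [fco, map_add, map_sum, map_mul, AlgHom.commutes]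
      have h0 : ∀ r : ℂ, l (algebraMap ℂ (DualNumber ℂ) r) = 0 := fun r => by
        rw [Algebra.algebraMap_eq_smul_one, map_smul, hl.one, smul_zero]
      have h1 : ∀ r : ℂ, ρ (algebraMap ℂ (DualNumber ℂ) r) = r := fun r => by
        rw [AlgHom.commutes]
        rfl
      rw [h0, zero_add]
      refine Finset.sum_congr rfl fun d _ => ?_
      rw [hl, h0, h1, mul_zero, zero_add]
    have e2 : (fun j b i => l (t' (fco c κ (fun d => Ideal.Quotient.mk _ (p.t d)) j b i)) -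
        l (t (fco c κ (fun d => Ideal.Quotient.mk _ (p.t d)) j b i)) : Co ℂ k n a) =
        ∑ d, (l (t' (Ideal.Quotient.mk _ (p.t d))) - l (t (Ideal.Quotient.mk _ (p.t d)))) •
          κ d := by
      funext j b i
      rw [e1, e1, ← Finset.sum_sub_distrib]
      simp only [Finset.sum_apply, Pi.smul_apply, smul_eq_mul, sub_mul]
    have key2 := hκ (fun d => l (t' (Ideal.Quotient.mk _ (p.t d))) -
      l (t (Ideal.Quotient.mk _ (p.t d)))) (by
        rw [← e2]
        exact key)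
    apply p.hom_ext
    intro d
    have h3 : l (t' (Ideal.Quotient.mk _ (p.t d))) - l (t (Ideal.Quotient.mk _ (p.t d))) = 0 :=
      congrFun key2 d
    exact TrivSqZeroExt.ext ((hz t d).trans (hz t' d).symm) (sub_eq_zero.1 h3).symm

theorem le_localDim (hm : 0 < m) {c : Co ℂ k n a} (hc : Bnd c) (hk : n < k) :
    ((Module.finrank ℂ (Co ℂ k n a ⧸ Rc c) : ℕ) : WithBot ℕ∞) ≤
      (gfam h hm c (Ind.of hc.indep)).localDim := by
  obtain ⟨R, _, _, _, _, ⟨p⟩⟩ := exists_ring (Module.finrank ℂ (Co ℂ k n a ⧸ Rc c))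
  refine p.dim.trans ?_
  let bs := Module.finBasis ℂ (Co ℂ k n a ⧸ Rc c)
  have hex : ∀ d, ∃ z : Co ℂ k n a, (Rc c).mkQ z = bs d := fun d =>
    (Rc c).mkQ_surjective (bs d)
  choose κ hκ using hex
  have hκ' : ∀ z : Fin (Module.finrank ℂ (Co ℂ k n a ⧸ Rc c)) → ℂ,
      ∑ d, z d • κ d ∈ Rc c → z = 0 := by
    intro z hz
    have h1 : (Rc c).mkQ (∑ d, z d • κ d) = 0 := by
      rw [Submodule.mkQ_apply, Submodule.Quotient.mk_eq_zero]
      exact hz
    rw [map_sum] at h1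
    simp only [map_smul, hκ] at h1
    funext d
    exact Fintype.linearIndependent_iff.1 bs.linearIndependent z h1 d
  unfold CohSys.localDim
  exact le_iSup_of_le R (le_iSup_of_le inferInstance (le_iSup_of_le inferInstance
    (le_iSup_of_le inferInstance (le_iSup_of_le inferInstance
      (le_iSup_of_le ⟨p.π⟩ (le_iSup_of_le ⟨ffam h hm hc hk p κ hκ'⟩ le_rfl))))))

end Pool.Agent.CSG
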