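import Mathlib

/-!
# Spaces of sections with constant coefficients: linear algebra

`Co B k n a`: arrays `c j b i`, the coefficient of `x ^ i` in the component `b` of the section `j` (`j < k`, `b < n`, `i ≤ a`).

* `bnd_simple`: if `A c_j` is a combination of the `c_j` for every `j`, then `A` is scalar.  Proof: let `r` be an eigenvalue of `A` (`Module.End.exists_eigenvalue`,
  `n ≠ 0`), `B = A - r`, `B` is not invertible.  Suppose `B ≠ 0`.  `B` maps `V = span c` to `V`.  The kernel of `B` on `V` consists of the `u ∈ V` all of whose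
  coefficient vectors lie in `ker B ≠ ⊤`, the image of `V` consists of `u ∈ V` whose coefficient vectors lie in `range B ≠ ⊤`; so `Bnd` gives
  `k = dim V ≤ finrank (ker B) + finrank (range B) = n`, but `n < k`.
* `finrank_Rc`: the kernel of `(A, P) ↦ actL A c + actR P c` consists of the pairs `(r, - r)`, `r ∈ ℂ` (`bnd_simple`, linear independence of `c`).
-/

namespace Pool.Agent.CSG

open Matrix

/-- Arrays of coefficients. -/
abbrev Co (B : Type) (k n a : ℕ) : Type := Fin k → Fin n → Fin (a + 1) → B

variable {k n a : ℕ}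

/-- Action of a matrix on the components. -/
def actL (c : Co ℂ k n a) : Matrix (Fin n) (Fin n) ℂ →ₗ[ℂ] Co ℂ k n a where
  toFun A := fun j b i => ∑ b', A b b' * c j b' i
  map_add' A A' := by
    funext j b i
    simp only [Matrix.add_apply, add_mul, Finset.sum_add_distrib, Pi.add_apply]
  map_smul' r A := by
    funext j b i
    simp only [Matrix.smul_apply, smul_eq_mul, mul_assoc, RingHom.id_apply, Pi.smul_apply,
      Finset.mul_sum]

/-- Action of a matrix on the sections. -/
def actR (c : Co ℂ k n a) : Matrix (Fin k) (Fin k) ℂ →ₗ[ℂ] Co ℂ k n a where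
  toFun P := fun j b i => ∑ j', c j' b i * P j' j
  map_add' A A' := by
    funext j b i
    simp only [Matrix.add_apply, mul_add, Finset.sum_add_distrib, Pi.add_apply]
  map_smul' r A := by
    funext j b i
    simp only [Matrix.smul_apply, smul_eq_mul, RingHom.id_apply, Pi.smul_apply,
      Finset.mul_sum]
    exact Finset.sum_congr rfl fun _ _ => by ring

/-- The tangent directions which come from isomorphisms. -/
noncomputable def Rc (c : Co ℂ k n a) : Submodule ℂ (Co ℂ k n a) :=
  LinearMap.range ((actL c).coprod (actR c))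

theorem mem_Rc {c z : Co ℂ k n a} :
    z ∈ Rc c ↔ ∃ (A : Matrix (Fin n) (Fin n) ℂ) (P : Matrix (Fin k) (Fin k) ℂ),
      z = actL c A + actR c P := by
  constructor
  · rintro ⟨⟨A, P⟩, rfl⟩
    exact ⟨A, P, rfl⟩
  · rintro ⟨A, P, rfl⟩
    exact ⟨(A, P), rfl⟩

/-- The condition on the sections: the sections whose coefficient vectors lie in a proper subspace `T` form a space
of dimension at most `dim T`. -/
structure Bnd (c : Co ℂ k n a) : Prop where
  indep : LinearIndependent ℂ c
  bnd : ∀ (T : Submodule ℂ (Fin n → ℂ)) (W : Submodule ℂ (Fin n → Fin (a + 1) → ℂ)), T ≠ ⊤ →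
    W ≤ Submodule.span ℂ (Set.range c) → (∀ u ∈ W, ∀ i, (fun b => u b i) ∈ T) →
    Module.finrank ℂ W ≤ Module.finrank ℂ T

/-- The action of a matrix on the components, as an endomorphism. -/
private def Lin_T (B : Matrix (Fin n) (Fin n) ℂ) :
    (Fin n → Fin (a + 1) → ℂ) →ₗ[ℂ] (Fin n → Fin (a + 1) → ℂ) where
  toFun u := fun b i => ∑ b', B b b' * u b' i
  map_add' u v := by
    funext b i
    simp only [Pi.add_apply, mul_add, Finset.sum_add_distrib]
  map_smul' r u := by
    funext b i
    simp only [Pi.smul_apply, smul_eq_mul, RingHom.id_apply, Finset.mul_sum]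
    exact Finset.sum_congr rfl fun _ _ => by ring

private theorem Lin_T_apply (B : Matrix (Fin n) (Fin n) ℂ) (u : Fin n → Fin (a + 1) → ℂ) (i : Fin (a + 1)) :
    (fun b => Lin_T B u b i) = B.mulVec (fun b => u b i) := by
  funext b
  simp only [Lin_T, LinearMap.coe_mk, AddHom.coe_mk, Matrix.mulVec, dotProduct]

private theorem Lin_mem_span {c : Co ℂ k n a} {A : Matrix (Fin n) (Fin n) ℂ}
    (hA : ∀ j, (fun b i => ∑ b', A b b' * c j b' i) ∈ Submodule.span ℂ (Set.range c)) (r : ℂ) :
    ∀ u ∈ Submodule.span ℂ (Set.range c), Lin_T (A - r • (1 : Matrix (Fin n) (Fin n) ℂ)) u ∈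
      Submodule.span ℂ (Set.range c) := by
  have hle : Submodule.span ℂ (Set.range c) ≤
      (Submodule.span ℂ (Set.range c)).comap (Lin_T (A - r • (1 : Matrix (Fin n) (Fin n) ℂ))) := by
    rw [Submodule.span_le]
    rintro u ⟨j, rfl⟩
    change Lin_T (A - r • (1 : Matrix (Fin n) (Fin n) ℂ)) (c j) ∈ Submodule.span ℂ (Set.range c)
    have h : Lin_T (A - r • (1 : Matrix (Fin n) (Fin n) ℂ)) (c j) =
        (fun b i => ∑ b', A b b' * c j b' i) - r • c j := by
      funext b i
      simp only [Lin_T, LinearMap.coe_mk, AddHom.coe_mk, Matrix.sub_apply, Matrix.smul_apply, sub_mul,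
        Finset.sum_sub_distrib, Pi.sub_apply, Pi.smul_apply, smul_eq_mul, Matrix.one_apply]
      congr 1
      rw [Finset.sum_eq_single b]
      · simp
      · intro b' _ hb
        rw [if_neg (Ne.symm hb)]
        simp
      · intro hb
        exact absurd (Finset.mem_univ b) hb
    rw [h]
    exact Submodule.sub_mem _ (hA j) (Submodule.smul_mem _ _ (Submodule.subset_span ⟨j, rfl⟩))
  exact hle

theorem bnd_simple {c : Co ℂ k n a} (hc : Bnd c) (hk : n < k) {A : Matrix (Fin n) (Fin n) ℂ}
    (hA : ∀ j, (fun b i => ∑ b', A b b' * c j b' i) ∈ Submodule.span ℂ (Set.range c)) :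
    ∃ r : ℂ, A = r • (1 : Matrix (Fin n) (Fin n) ℂ) := by
  rcases Nat.eq_zero_or_pos n with hn | hn
  · subst hn
    exact ⟨0, Subsingleton.elim _ _⟩
  have : Nonempty (Fin n) := ⟨⟨0, hn⟩⟩
  obtain ⟨r, hr⟩ := Module.End.exists_eigenvalue (K := ℂ) (Matrix.mulVecLin A)
  obtain ⟨v, hv⟩ := hr.exists_hasEigenvector
  refine ⟨r, ?_⟩
  by_contra hne
  set B : Matrix (Fin n) (Fin n) ℂ := A - r • (1 : Matrix (Fin n) (Fin n) ℂ) with hB
  have hB0 : B ≠ 0 := fun h => hne (sub_eq_zero.1 h)
  have hBv : B.mulVecLin v = 0 := by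
    have h1 := hv.apply_eq_smul
    rw [Matrix.mulVecLin_apply] at h1 ⊢
    rw [hB, Matrix.sub_mulVec, Matrix.smul_mulVec, Matrix.one_mulVec, h1, sub_self]
  have hker : LinearMap.ker B.mulVecLin ≠ ⊤ := by
    intro h
    apply hB0
    have h2 : B.mulVecLin = 0 := LinearMap.ker_eq_top.1 h
    ext i j
    have h3 := congrFun (LinearMap.congr_fun h2 (Pi.single j 1)) i
    simpa using h3
  have hran : LinearMap.range B.mulVecLin ≠ ⊤ := by
    intro h
    have hsurj : Function.Surjective B.mulVecLin := LinearMap.range_eq_top.1 h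
    have hinj : Function.Injective B.mulVecLin := LinearMap.injective_iff_surjective.2 hsurj
    have : v = 0 := hinj (by rw [hBv, map_zero])
    exact hv.2 this
  set V := Submodule.span ℂ (Set.range c) with hV
  have hmem := Lin_mem_span hA r
  rw [← hB, ← hV] at hmem
  set f : V →ₗ[ℂ] V := (Lin_T B).restrict hmem with hf
  have hrn := LinearMap.finrank_range_add_finrank_ker f
  have hdim : Module.finrank ℂ V = k := by
    rw [hV, finrank_span_eq_card hc.indep, Fintype.card_fin]
  have h1 : Module.finrank ℂ (LinearMap.ker f) ≤ Module.finrank ℂ (LinearMap.ker B.mulVecLin) := by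
    have h := hc.bnd (LinearMap.ker B.mulVecLin) ((LinearMap.ker f).map V.subtype) hker
      (Submodule.map_subtype_le _ _) (by
        rintro _ ⟨u, hu, rfl⟩ i
        have hu' : f u = 0 := hu
        have hu2 : Lin_T B (u : Fin n → Fin (a + 1) → ℂ) = 0 := by
          have := congrArg Subtype.val hu'
          simpa [hf] using this
        rw [LinearMap.mem_ker, Matrix.mulVecLin_apply]
        change B.mulVec (fun b => (u : Fin n → Fin (a + 1) → ℂ) b i) = 0
        rw [← Lin_T_apply, hu2]
        rfl)
    rwa [Submodule.finrank_map_subtype_eq] at h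
  have h2 : Module.finrank ℂ (LinearMap.range f) ≤ Module.finrank ℂ (LinearMap.range B.mulVecLin) := by
    have h := hc.bnd (LinearMap.range B.mulVecLin) ((LinearMap.range f).map V.subtype) hran
      (Submodule.map_subtype_le _ _) (by
        rintro _ ⟨_, ⟨u, rfl⟩, rfl⟩ i
        refine ⟨fun b => (u : Fin n → Fin (a + 1) → ℂ) b i, ?_⟩
        rw [Matrix.mulVecLin_apply, ← Lin_T_apply]
        rfl)
    rwa [Submodule.finrank_map_subtype_eq] at h
  have h3 := LinearMap.finrank_range_add_finrank_ker B.mulVecLin
  rw [Module.finrank_fin_fun] at h3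
  omega

private theorem Lin_ker {c : Co ℂ k n a} (hc : Bnd c) (hk : n < k) :
    LinearMap.ker ((actL c).coprod (actR c)) =
      Submodule.span ℂ {((1 : Matrix (Fin n) (Fin n) ℂ), -(1 : Matrix (Fin k) (Fin k) ℂ))} := by
  apply le_antisymm
  · rintro ⟨A, P⟩ h
    rw [LinearMap.mem_ker, LinearMap.coprod_apply] at h
    have hj : ∀ j, (fun b i => ∑ b', A b b' * c j b' i) = -∑ j', P j' j • c j' := by
      intro j
      have h1 := congrFun h j
      funext b i
      have h2 := congrFun (congrFun h1 b) i
      have h3 : (∑ b', A b b' * c j b' i) + ∑ j', c j' b i * P j' j = 0 := h2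
      simp only [Pi.neg_apply, Finset.sum_apply, Pi.smul_apply, smul_eq_mul]
      rw [eq_neg_iff_add_eq_zero, ← h3]
      congr 1
      exact Finset.sum_congr rfl fun _ _ => mul_comm _ _
    obtain ⟨r, hr⟩ := bnd_simple hc hk (A := A) fun j => by
      rw [hj j]
      exact Submodule.neg_mem _ (Submodule.sum_mem _ fun j' _ =>
        Submodule.smul_mem _ _ (Submodule.subset_span ⟨j', rfl⟩))
    have hP : P = r • -(1 : Matrix (Fin k) (Fin k) ℂ) := by
      have hli := Fintype.linearIndependent_iff.1 hc.indep
      ext j' j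
      have h4 : ∑ i, (P i j + r * (1 : Matrix (Fin k) (Fin k) ℂ) i j) • c i = 0 := by
        have h5 : (fun b i => ∑ b', A b b' * c j b' i) = r • c j := by
          funext b i
          rw [hr, Finset.sum_eq_single b]
          · simp
          · intro b' _ hb
            rw [Matrix.smul_apply, Matrix.one_apply_ne (Ne.symm hb)]
            simp
          · intro hb
            exact absurd (Finset.mem_univ b) hb
        have h6 := hj j
        rw [h5] at h6
        simp only [add_smul, Finset.sum_add_distrib]
        have h7 : ∑ i, (r * (1 : Matrix (Fin k) (Fin k) ℂ) i j) • c i = r • c j := by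
          rw [Finset.sum_eq_single j]
          · simp
          · intro b' _ hb
            rw [Matrix.one_apply_ne hb]
            simp
          · intro hb
            exact absurd (Finset.mem_univ j) hb
        rw [h7, h6, add_neg_cancel]
      have h8 := hli _ h4 j'
      simp only [Matrix.smul_apply, Matrix.neg_apply, smul_eq_mul]
      linear_combination h8
    rw [hr, hP]
    exact Submodule.mem_span_singleton.2 ⟨r, rfl⟩
  · rw [Submodule.span_singleton_le_iff_mem, LinearMap.mem_ker, LinearMap.coprod_apply]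
    funext j b i
    have h1 : (∑ b', (1 : Matrix (Fin n) (Fin n) ℂ) b b' * c j b' i) = c j b i := by
      rw [Finset.sum_eq_single b]
      · simp
      · intro b' _ hb
        rw [Matrix.one_apply_ne (Ne.symm hb)]
        simp
      · intro hb
        exact absurd (Finset.mem_univ b) hb
    have h2 : (∑ j', c j' b i * (-(1 : Matrix (Fin k) (Fin k) ℂ)) j' j) = -c j b i := by
      rw [Finset.sum_eq_single j]
      · simp
      · intro b' _ hb
        rw [Matrix.neg_apply, Matrix.one_apply_ne hb]
        simp
      · intro hb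
        exact absurd (Finset.mem_univ j) hb
    change (∑ b', (1 : Matrix (Fin n) (Fin n) ℂ) b b' * c j b' i) +
      (∑ j', c j' b i * (-(1 : Matrix (Fin k) (Fin k) ℂ)) j' j) = 0
    rw [h1, h2, add_neg_cancel]

theorem finrank_Rc {c : Co ℂ k n a} (hc : Bnd c) (hn : 1 ≤ n) (hk : n < k) :
    Module.finrank ℂ (Rc c) + 1 = n ^ 2 + k ^ 2 := by
  have h := LinearMap.finrank_range_add_finrank_ker ((actL c).coprod (actR c))
  rw [Lin_ker hc hk, finrank_span_singleton, Module.finrank_prod, Module.finrank_matrix,
    Module.finrank_matrix] at h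
  · rw [Rc, h]
    simp only [Fintype.card_fin, Module.finrank_self]
    ring
  · intro h0
    have h1 := congrFun (congrFun (congrArg Prod.fst h0) ⟨0, hn⟩) ⟨0, hn⟩
    simp at h1

end Pool.Agent.CSG
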