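import Pool.Agent.Hhelper20.CS.Defs

/-!
# Arithmetic

`C = k choose n`, `p = C + n ^ 2 - n k - 1`.
* `num_iff`: `ring` / `linear_combination`.
* `num_exists`: for `n = 1` take `a = A + 1`, `g = a + δ + 2`.  For `n ≥ 2`: `p ≥ 1` (`choose_ge`: `C(n + l, n) ≥ n l + 2` for `n, l ≥ 2`, induction on `l`),
  `t = A + δ + 2`, `a = p t`, `g = n (C - k) t`; then `g - n a = n t (n - 1) (k - n - 1)`.
-/

namespace Pool.Agent.CSG

open Pool.Agent.Hhelper20.CS

theorem choose_ge {n l : ℕ} (hn : 2 ≤ n) (hl : 2 ≤ l) : n * l + 2 ≤ (n + l).choose n := by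
  induction l, hl using Nat.le_induction with
  | base =>
    rw [Nat.choose_symm_add, Nat.choose_two_right, Nat.le_div_iff_mul_le (by norm_num)]
    have h1 : n + 2 - 1 = n + 1 := by omega
    rw [h1]
    nlinarith
  | succ l hl ih =>
    obtain ⟨j, rfl⟩ : ∃ j, n = j + 1 := ⟨n - 1, by omega⟩
    have h1 : (j + 1 + (l + 1)).choose (j + 1) =
        (j + 1 + l).choose j + (j + 1 + l).choose (j + 1) := by
      rw [← add_assoc, Nat.choose_succ_succ]
    have h2 : (j + 1).choose j ≤ (j + 1 + l).choose j := Nat.choose_le_choose j (by omega)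
    have h3 : (j + 1).choose j = j + 1 := by
      rw [Nat.choose_succ_self_right]
    rw [h1]
    rw [h3] at h2
    have h4 : (j + 1) * (l + 1) = (j + 1) * l + (j + 1) := by ring
    omega

theorem num_iff (n k a g C : ℤ) :
    k * n * (a + 1) - n ^ 2 - k ^ 2 + 1 = beta g n (2 * n * a) k - g + (g - n * a) * C ↔
      g * (C + n ^ 2 - n * k - 1) = n * a * (C - k) := by
  unfold beta
  constructor
  · intro h
    linear_combination -h
  · intro h
    linear_combination -h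

theorem num_exists {n k : ℕ} (hn : 1 ≤ n) (hk : n + 1 < k) (δ A : ℕ) :
    ∃ a g : ℕ, A ≤ a ∧ 1 ≤ a ∧ 2 ≤ g ∧ n * a + δ ≤ g ∧
      (g * (k.choose n + n ^ 2 - n * k - 1) : ℤ) = n * a * (k.choose n - k) := by
  rcases Nat.lt_or_ge n 2 with h | h
  · have h1 : n = 1 := by omega
    subst h1
    refine ⟨A + 1, A + 1 + δ + 2, by omega, by omega, by omega, by omega, ?_⟩
    rw [Nat.choose_one_right]
    push_cast
    ring
  · obtain ⟨l, rfl⟩ : ∃ l, k = n + l := ⟨k - n, by omega⟩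
    have hl : 2 ≤ l := by omega
    have hC := choose_ge h hl
    obtain ⟨p, hp⟩ : ∃ p, (n + l).choose n = p + 1 + (n * l + 1) :=
      ⟨(n + l).choose n - (n * l + 2), by omega⟩
    obtain ⟨n', rfl⟩ : ∃ n', n = n' + 2 := ⟨n - 2, by omega⟩
    obtain ⟨l', rfl⟩ : ∃ l', l = l' + 2 := ⟨l - 2, by omega⟩
    rw [hp]
    refine ⟨(p + 1) * (A + δ + 2),
      (n' + 2) * ((p + 1) + (n' + 1) * (l' + 1)) * (A + δ + 2), ?_, ?_, ?_, ?_, ?_⟩
    · nlinarith [Nat.zero_le (p * (A + δ + 2))]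
    · nlinarith [Nat.zero_le (p * (A + δ + 2))]
    · have h1 : 1 ≤ (n' + 2) * ((p + 1) + (n' + 1) * (l' + 1)) :=
        Nat.mul_pos (by omega) (by omega)
      nlinarith
    · have h1 : 0 < (n' + 2) * ((n' + 1) * (l' + 1)) := by positivity
      have h2 : A + δ + 2 ≤ (n' + 2) * ((n' + 1) * (l' + 1)) * (A + δ + 2) :=
        Nat.le_mul_of_pos_left _ h1
      have h3 : (n' + 2) * ((p + 1) + (n' + 1) * (l' + 1)) * (A + δ + 2) =
          (n' + 2) * ((p + 1) * (A + δ + 2)) + (n' + 2) * ((n' + 1) * (l' + 1)) * (A + δ + 2) := by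
        ring
      rw [h3]
      omega
    · push_cast
      ring

end Pool.Agent.CSG
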