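import Pool.Agent.CSG.TanD
import Pool.Agent.CSG.Comb
import Pool.Agent.CSG.Dat

/-!
# The deformation of the bundle is trivial

`tN_mem`: put `ν b b' i = co (tN h Y a b b' l) (Sum.inr i)` for `b, b' < n` and `0` otherwise.  For `i` with `a - m < i < 0` the coefficient of `x ^ i y` in
`Dl l (Y.s0 b j) - x ^ a * Dl l (Y.s1 b j) ∈ Sp A0 ⊔ Sp (A1 m a)` is `0`, so by `t_glue` that of `∑ b', tN b b' * pol h a (dat n k a j b')` is `0`, and
`co (x ^ t * z) (inr i) = co z (inr (i - t))` for `z ∈ Sp univ` (`co_zpow_mul`).  For the sections `j = 0`, `1 ≤ j < n`, `j = n` of `dat` this gives the hypotheses `first`, `chain`, `last` of `comb`;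
`tr` is `trace_mem` (`gsys_gF`).  So all coefficients at `inr i`, `-m < i < 0`, vanish, i.e. `tN ∈ Sp (A0 ∪ A1 m 0)` (`mem_Sp_iff`, `tN_univ`).
-/

open TensorProduct

namespace Pool.Agent.CSG

open Pool.Agent.Hhelper20.CS

variable {F : Type} [Field F] [Algebra ℂ F] {m : ℕ} (h : Hyp F m)

theorem co_zpow_mul {z : F} (hz : z ∈ Sp h.lb Set.univ) (t i : ℤ) :
    co h.lb_indep (h.x ^ t * z) (Sum.inr i) = co h.lb_indep z (Sum.inr (i - t)) := by
  induction hz using Submodule.span_induction with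
  | zero => simp
  | add u v _ _ hu hv =>
    rw [mul_add, map_add, map_add, Finsupp.add_apply, Finsupp.add_apply, hu, hv]
  | smul r u _ hu =>
    rw [mul_smul_comm, map_smul, map_smul, Finsupp.smul_apply, Finsupp.smul_apply, hu]
  | mem u hu =>
    obtain ⟨p, -, rfl⟩ := hu
    rw [← h.lb_sh, co_b, co_b]
    rcases p with p | p
    · simp [Hyp.sh]
    · simp only [Hyp.sh, Sum.map_inr, Finsupp.single_apply, Sum.inr.injEq]
      congr 1
      exact propext (by omega)

private theorem pol_dat {k n a : ℕ} (j : Fin k) (hj : j.1 ≤ n) (b : Fin n) :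
    pol h a (dat n k a j b) =
      (if j.1 = b.1 + 1 then 1 else 0) + (if j.1 = b.1 then h.x ^ (a : ℤ) else 0) := by
  rw [pol_apply]
  simp only [dat, hj, if_true, add_smul, Finset.sum_add_distrib]
  congr 1
  · rw [Finset.sum_eq_single (0 : Fin (a + 1))]
    · split_ifs <;> simp_all
    · intro i _ hi
      have h1 : ¬ (i.1 = 0 ∧ j.1 = b.1 + 1) := fun h2 => hi (Fin.ext h2.1)
      rw [if_neg h1, zero_smul]
    · intro h1
      exact absurd (Finset.mem_univ _) h1
  · rw [Finset.sum_eq_single (Fin.last a)]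
    · split_ifs <;> simp_all
    · intro i _ hi
      have h1 : ¬ (i.1 = a ∧ j.1 = b.1) := fun h2 => hi (Fin.ext h2.1)
      rw [if_neg h1, zero_smul]
    · intro h1
      exact absurd (Finset.mem_univ _) h1

variable {k n a : ℕ} {hm : 0 < m} {B : Type} [CommRing B] [Algebra ℂ B]
  (Y : CohSys (h.curve hm) B n k)

theorem tN_mem {hc : Ind (dat n k a)} (hn : 1 ≤ n) (hk : n < k) (ha : 0 < a) (hna : n * a < m)
    (ρ : B →ₐ[ℂ] ℂ) (hY : Y.map ρ = gfam h hm (dat n k a) hc)
    (hd : CohSys.SameDet (gfam h hm (dat n k a) hc) Y) {l : B →ₗ[ℂ] ℂ} (hl : IsTan ρ l)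
    (b b' : Fin n) : tN h Y a b b' l ∈ Sp h.lb (Hyp.A0 ∪ Hyp.A1 m 0) := by
  classical
  -- coefficients of the sums
  have hsum : ∀ (c : Fin n) (j : Fin k) (i : ℤ), (a : ℤ) - m < i → i < 0 →
      co h.lb_indep (∑ d, tN h Y a c d l * pol h a (dat n k a j d)) (Sum.inr i) = 0 := by
    intro c j i hi1 hi2
    have h1 := t_glue h Y ρ hY hl c j
    have h2 : ∑ d, tN h Y a c d l * pol h a (dat n k a j d) =
        Dl l (Y.s0 c j) - h.x ^ (a : ℤ) * Dl l (Y.s1 c j) := by
      rw [h1, add_sub_cancel_left]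
    have h3 : Dl l (Y.s0 c j) ∈ Sp h.lb Hyp.A0 := by
      rw [← h.toSubmodule_U]
      exact DlF_mem (Y.h0 c j) l
    have h4 : h.x ^ (a : ℤ) * Dl l (Y.s1 c j) ∈ Sp h.lb (Hyp.A1 m a) := by
      rw [← h.toSubmodule_swap_U a]
      exact ⟨_, DlF_mem (Y.h1 c j) l, rfl⟩
    have h5 : (Sum.inr i : ℤ ⊕ ℤ) ∉ Hyp.A0 := fun h6 => by
      have h7 : 0 ≤ i := h6
      omega
    have h6 : (Sum.inr i : ℤ ⊕ ℤ) ∉ Hyp.A1 m (a : ℤ) := fun h6 => by
      have h7 : i ≤ a - m := h6
      omega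
    rw [h2, map_sub, Finsupp.sub_apply, co_eq_zero h.lb_indep h3 h5,
      co_eq_zero h.lb_indep h4 h6, sub_zero]
  -- the trace
  have htr : ∀ i : ℤ, -(m : ℤ) < i → i < 0 →
      ∑ c, co h.lb_indep (tN h Y a c c l) (Sum.inr i) = 0 := by
    intro i hi1 hi2
    have hG : Y.g.val.map (Dl l) = (gfam h hm (dat n k a) hc).gF *
        Matrix.of fun c d => tN h Y a c d l := by
      rw [gsys_gF]
      ext c d
      rw [Matrix.map_apply, Matrix.scalar_apply, Matrix.diagonal_mul, Matrix.of_apply, tN_mul]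
    obtain ⟨p, hp, q, hq, hpq⟩ := trace_mem ρ hY hd hl _ hG
    have h3 : p ∈ Sp h.lb Hyp.A0 := by
      rw [← h.toSubmodule_U]
      exact hp
    have h4 : q ∈ Sp h.lb (Hyp.A1 m 0) := by
      rw [← h.toSubmodule_swap_U']
      exact hq
    have h5 : (Sum.inr i : ℤ ⊕ ℤ) ∉ Hyp.A0 := fun h6 => by
      have h7 : 0 ≤ i := h6
      omega
    have h6 : (Sum.inr i : ℤ ⊕ ℤ) ∉ Hyp.A1 m 0 := fun h6 => by
      have h7 : i ≤ 0 - m := h6
      omega
    have h7 := congrArg (fun z => co h.lb_indep z (Sum.inr i)) hpq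
    simp only [Matrix.trace, Matrix.diag_apply, Matrix.of_apply, map_sum, map_add,
      Finset.sum_apply', Finsupp.add_apply, co_eq_zero h.lb_indep h3 h5,
      co_eq_zero h.lb_indep h4 h6, add_zero] at h7
    exact h7
  have hmul : ∀ (c d : Fin n) (i : ℤ),
      co h.lb_indep (tN h Y a c d l * h.x ^ (a : ℤ)) (Sum.inr i) =
        co h.lb_indep (tN h Y a c d l) (Sum.inr (i - a)) := fun c d i => by
    rw [mul_comm, co_zpow_mul h (tN_univ h Y c d l)]
  -- the array of coefficients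
  let ν : ℕ → ℕ → ℤ → ℂ := fun c d i =>
    if hcd : c < n ∧ d < n then co h.lb_indep (tN h Y a ⟨c, hcd.1⟩ ⟨d, hcd.2⟩ l) (Sum.inr i) else 0
  have hν : ∀ (c d : Fin n) (i : ℤ), ν c.1 d.1 i = co h.lb_indep (tN h Y a c d l) (Sum.inr i) :=
    fun c d i => by
      simp only [ν]
      rw [dif_pos ⟨c.2, d.2⟩]
  have key := comb (n := n) (a := a) (m := m) (by exact_mod_cast ha) (by exact_mod_cast hna) ν
    ?_ ?_ ?_ ?_
  · rw [mem_Sp_iff h.lb_indep]
    refine ⟨tN_univ h Y b b' l, fun p hp => ?_⟩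
    rcases p with i | i
    · exfalso
      rcases lt_or_ge i 0 with h1 | h1
      · exact hp (Or.inr (show i ≤ 0 from h1.le))
      · exact hp (Or.inl (show 0 ≤ i from h1))
    · rw [← hν]
      refine key b.1 b.2 b'.1 b'.2 i ?_ ?_
      · by_contra h1
        exact hp (Or.inr (show i ≤ 0 - m by omega))
      · by_contra h1
        exact hp (Or.inl (show 0 ≤ i by omega))
  · intro c hcn i hi1 hi2
    have h1 := hsum ⟨c, hcn⟩ ⟨0, by omega⟩ i hi1 hi2
    rw [Finset.sum_eq_single (⟨0, by omega⟩ : Fin n)] at h1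
    · rw [pol_dat h _ (by simp)] at h1
      simp only [zero_add, reduceIte] at h1
      rw [if_neg (by omega), zero_add, hmul] at h1
      rw [← h1]
      exact hν ⟨c, hcn⟩ ⟨0, by omega⟩ (i - a)
    · intro d _ hd
      rw [pol_dat h _ (by simp)]
      have h3 : ¬ (0 = d.1) := fun h4 => hd (Fin.ext h4.symm)
      simp [h3]
    · intro h2
      exact absurd (Finset.mem_univ _) h2
  · intro c hcn d hdn i hi1 hi2
    have h1 := hsum ⟨c, hcn⟩ ⟨d + 1, by omega⟩ i hi1 hi2
    have h2 : ∀ e : Fin n, tN h Y a ⟨c, hcn⟩ e l * pol h a (dat n k a ⟨d + 1, by omega⟩ e) =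
        (if e = ⟨d, by omega⟩ then tN h Y a ⟨c, hcn⟩ e l else 0) +
          (if e = ⟨d + 1, hdn⟩ then tN h Y a ⟨c, hcn⟩ e l * h.x ^ (a : ℤ) else 0) := by
      intro e
      rw [pol_dat h _ (by simp only; omega), mul_add]
      congr 1
      · by_cases h3 : e.1 = d
        · rw [if_pos (by simp only; omega), if_pos (Fin.ext h3), mul_one]
        · rw [if_neg (by simp only; omega), if_neg (fun h4 => h3 (congrArg Fin.val h4)), mul_zero]
      · by_cases h3 : e.1 = d + 1
        · rw [if_pos (by simp only; omega), if_pos (Fin.ext h3)]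
        · rw [if_neg (by simp only; omega), if_neg (fun h4 => h3 (congrArg Fin.val h4)), mul_zero]
    simp only [h2, Finset.sum_add_distrib, Finset.sum_ite_eq', Finset.mem_univ, if_true, map_add,
      Finsupp.add_apply, hmul] at h1
    rw [← h1]
    exact congrArg₂ (· + ·) (hν ⟨c, hcn⟩ ⟨d, by omega⟩ i) (hν ⟨c, hcn⟩ ⟨d + 1, hdn⟩ (i - a))
  · intro c hcn i hi1 hi2
    have h1 := hsum ⟨c, hcn⟩ ⟨n, hk⟩ i hi1 hi2
    rw [Finset.sum_eq_single (⟨n - 1, by omega⟩ : Fin n)] at h1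
    · rw [pol_dat h _ (by simp)] at h1
      rw [if_pos (by simp only; omega), if_neg (by simp only; omega), add_zero, mul_one] at h1
      rw [← h1]
      exact hν ⟨c, hcn⟩ ⟨n - 1, by omega⟩ i
    · intro d _ hd
      have h3 : ¬ (d.1 = n - 1) := fun h4 => hd (Fin.ext h4)
      have h4 := d.2
      rw [pol_dat h _ (by simp), if_neg (by simp only; omega), if_neg (by simp only; omega),
        add_zero, mul_zero]
    · intro h2
      exact absurd (Finset.mem_univ _) h2
  · intro i hi1 hi2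
    rw [← htr i hi1 hi2, Finset.sum_range]
    exact Finset.sum_congr rfl fun c _ => hν c c i

end Pool.Agent.CSG
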