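import Pool.Agent.CSG.Stab
import Pool.Agent.CSG.TanN
import Pool.Agent.CSG.Formal
import Pool.Agent.CSG.Num
import Pool.Agent.Hhelper20.CS.Model

/-!
# The local dimension of the moduli space at `(A ^ n, V)`
-/

open TensorProduct

namespace Pool.Agent.CSG

open Pool.Agent.Hhelper20.CS

variable {F : Type} [Field F] [Algebra ℂ F] {m : ℕ} (h : Hyp F m) {k n a : ℕ}

theorem tangentBoundD (hm : 0 < m) {hc : Ind (dat n k a)} (hn : 1 ≤ n) (hk : n < k) (ha : 0 < a)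
    (hna : n * a < m) : TangentBoundD (gfam h hm (dat n k a) hc)
      (Module.finrank ℂ (Co ℂ k n a ⧸ Rc (dat n k a))) := by
  intro B _ _ ρ Y hY hd hunr f hf hli
  have ham : a < m := lt_of_le_of_lt (Nat.le_mul_of_pos_left a hn) hna
  let κ : (B →ₗ[ℂ] ℂ) →ₗ[ℂ] (Co ℂ k n a ⧸ Rc (dat n k a)) :=
    (Rc (dat n k a)).mkQ ∘ₗ tK h Y (dat n k a)
  have hdep : ¬ LinearIndependent ℂ (κ ∘ f) := by
    intro hκ
    have := hκ.fintype_card_le_finrank
    rw [Fintype.card_fin] at this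
    omega
  rw [Fintype.not_linearIndependent_iff] at hdep
  obtain ⟨c, hc', i, hi⟩ := hdep
  have hκ : κ (∑ i, c i • f i) = 0 := by
    rw [map_sum, ← hc']
    refine Finset.sum_congr rfl fun i _ => ?_
    rw [map_smul]; rfl
  have htan : IsTan ρ (∑ i, c i • f i) := IsTan.sum _ fun i => (hf i).smul (c i)
  have h1 : tK h Y (dat n k a) (∑ i, c i • f i) ∈ Rc (dat n k a) := by
    have h2 : (Rc (dat n k a)).mkQ (tK h Y (dat n k a) (∑ i, c i • f i)) = 0 := hκ
    rwa [Submodule.mkQ_apply, Submodule.Quotient.mk_eq_zero] at h2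
  have h0 := hunr _ htan (iso_of_mem_Rc h Y ρ hY ham htan
    (tN_mem h Y hn hk ha hna ρ hY hd htan) h1 _ _ _)
  rw [Fintype.linearIndependent_iff] at hli
  exact hi (hli c h0 i)

theorem finrank_quot {c : Co ℂ k n a} (hc : Bnd c) (hn : 1 ≤ n) (hk : n < k) :
    (Module.finrank ℂ (Co ℂ k n a ⧸ Rc c) : ℤ) = k * n * (a + 1) - n ^ 2 - k ^ 2 + 1 := by
  have h1 := finrank_Rc hc hn hk
  have h2 := (Rc c).finrank_quotient_add_finrank
  have h3 : Module.finrank ℂ (Co ℂ k n a) = k * (n * (a + 1)) := by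
    simp [Module.finrank_pi_fintype]
  rw [h3] at h2
  have h4 : ((Module.finrank ℂ (Rc c) : ℕ) : ℤ) + 1 = n ^ 2 + k ^ 2 := by exact_mod_cast h1
  have h5 : (Module.finrank ℂ (Co ℂ k n a ⧸ Rc c) : ℤ) + (Module.finrank ℂ (Rc c) : ℕ) =
      k * (n * (a + 1)) := by exact_mod_cast h2
  linear_combination h5 - h4

theorem main {n k a g : ℕ} (hn : 1 ≤ n) (hk : n < k) (ha : (k - n - 1) * n + 1 ≤ a)
    (hg : n * a ≤ g) :
    ∃ (F : Type) (_ : Field F) (_ : Algebra ℂ F) (C : Curve F) (X : CohSys C ℂ n k) (d : ℕ),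
      C.genus = g ∧ X.deg = 2 * n * a ∧ X.h1det = g - n * a ∧
      (∀ α : ℝ, 0 < α → α * k ≤ 1 → X.IsStable α) ∧ X.localDim = (d : ℕ) ∧
      (d : ℤ) = k * n * (a + 1) - n ^ 2 - k ^ 2 + 1 := by
  have hm : Fact (0 < g + 1) := ⟨Nat.succ_pos g⟩
  let h := Hyp.model (g + 1)
  have hc : Bnd (dat n k a) := dat_bnd hn hk ha
  have hna : n * a < g + 1 := Nat.lt_succ_of_le hg
  have ham : a < g + 1 := lt_of_le_of_lt (Nat.le_mul_of_pos_left a hn) hna
  refine ⟨_, inferInstance, inferInstance, h.curve hm.out,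
    gfam h hm.out (dat n k a) (Ind.of hc.indep),
    Module.finrank ℂ (Co ℂ k n a ⧸ Rc (dat n k a)), ?_, ?_, ?_, ?_, ?_, ?_⟩
  · rw [h.genus_curve]
    rfl
  · exact gsys_deg h hm.out _ _ ham
  · rw [gsys_h1det]
    omega
  · intro α hα hα'
    exact gsys_stable h hm.out ham hc hn hk hα hα'
  · exact le_antisymm (localDim_le_of (tangentBoundD h hm.out hn hk (by omega) hna))
      (le_localDim h hm.out hc hk)
  · exact finrank_quot hc hn hk

end Pool.Agent.CSG
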