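import Pool.Agent.CSG.DegT

/-!
# Stability

Let `(S, W)` be a proper subsystem, `r = finrank S ≥ 1`, `L u = (fun b => pol h a (u b))`; by `gsys_V`, `V` is the image of `span c` under the injective map `L`, so `finrank V = k`.
* `r = n`: `S = ⊤`, so `W < V`, `finrank W < k`, and `degSub ⊤ = deg = 2 n a` (`gsys_deg`).
* `r < n`, `degSub S < 2 a r`: `(2 a r - 1 + α finrank W) / r < (2 n a + α k) / n` since `α finrank W ≤ α k ≤ 1` and `α k r > 0`.
* `r < n`, `degSub S = 2 a r`: by `degSub_le` the coefficient vectors of `u`, `L u ∈ W`, lie in `T`, `finrank T ≤ r < n`, so `T ≠ ⊤` and `finrank W ≤ finrank T ≤ r` by `Bnd.bnd` (applied to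
  `W.comap L ⊓ span c`); `(2 a r + α r) / r = 2 a + α < 2 a + α k / n`.
See `Hyp.sys_stable` in `Hhelper20/CS/Hyp7.lean` for rank two.
-/

namespace Pool.Agent.CSG

open Pool.Agent.Hhelper20.CS

variable {F : Type} [Field F] [Algebra ℂ F] {m : ℕ} (h : Hyp F m) {k n a : ℕ}

theorem gsys_stable (hm : 0 < m) (ham : a < m) {c : Co ℂ k n a} (hc : Bnd c) (hn : 1 ≤ n)
    (hk : n < k) {α : ℝ} (hα : 0 < α) (hα' : α * k ≤ 1) :
    (gfam h hm c (Ind.of hc.indep)).IsStable α := by
  intro S W hS hSW hWV hWS
  let L : (Fin n → Fin (a + 1) → ℂ) →ₗ[ℂ] (Fin n → F) :=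
    LinearMap.pi fun b => pol h a ∘ₗ LinearMap.proj b
  have hLi : Function.Injective L := by
    intro u v huv
    funext b
    exact pol_injective h (congrFun huv b)
  have hV : (gfam h hm c (Ind.of hc.indep)).V = (Submodule.span ℂ (Set.range c)).map L :=
    gsys_V h hm c (Ind.of hc.indep)
  have hkV : Module.finrank ℂ (Submodule.span ℂ (Set.range c)) = k := by
    rw [finrank_span_eq_card hc.indep, Fintype.card_fin]
  have hVk : Module.finrank ℂ (gfam h hm c (Ind.of hc.indep)).V = k := by
    rw [hV, ← (Submodule.equivMapOfInjective L hLi _).finrank_eq, hkV]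
  have hVf : Module.Finite ℂ (gfam h hm c (Ind.of hc.indep)).V :=
    Module.finite_of_finrank_pos (by rw [hVk]; omega)
  have hWk : Module.finrank ℂ W ≤ k := by
    rw [← hVk]
    exact Submodule.finrank_mono hWV
  have hrn : Module.finrank F S ≤ n := by
    have := Submodule.finrank_le S
    rwa [Module.finrank_fintype_fun_eq_card, Fintype.card_fin] at this
  have hr0 : 0 < Module.finrank F S := by
    rw [Module.finrank_pos_iff, Submodule.nontrivial_iff_ne_bot]
    exact hS
  have hnR : (0 : ℝ) < n := by exact_mod_cast hn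
  have hrR : (0 : ℝ) < Module.finrank F S := by exact_mod_cast hr0
  have hkR : (n : ℝ) < k := by exact_mod_cast hk
  have hdeg := gsys_deg h hm c (Ind.of hc.indep) ham
  rcases hrn.eq_or_lt with hr | hr
  · have hT : S = ⊤ := by
      apply Submodule.eq_top_of_finrank_eq
      rw [hr, Module.finrank_fintype_fun_eq_card, Fintype.card_fin]
    subst hT
    have hne : W ≠ (gfam h hm c (Ind.of hc.indep)).V := fun e => hSW ⟨rfl, e⟩
    have hlt := Submodule.finrank_lt_finrank_of_lt (lt_of_le_of_ne hWV hne)
    rw [hVk] at hlt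
    have hltR : (Module.finrank ℂ W : ℝ) < k := by exact_mod_cast hlt
    have d4 : (gfam h hm c (Ind.of hc.indep)).degSub ⊤ = (gfam h hm c (Ind.of hc.indep)).deg := rfl
    rw [hr, d4]
    apply div_lt_div_of_pos_right _ hnR
    have := mul_lt_mul_of_pos_left hltR hα
    linarith
  · obtain ⟨hd1, hd2⟩ := degSub_le h hm ham c (Ind.of hc.indep) S
    rw [hdeg, div_lt_div_iff₀ hrR hnR]
    have hWkR : (Module.finrank ℂ W : ℝ) ≤ k := by exact_mod_cast hWk
    have haW : α * (Module.finrank ℂ W : ℝ) ≤ 1 :=
      (mul_le_mul_of_nonneg_left hWkR hα.le).trans hα'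
    have hkR0 : (0 : ℝ) < k := hnR.trans hkR
    have hpos : 0 < α * k * (Module.finrank F S : ℝ) := by positivity
    rcases hd1.lt_or_eq with hlt | heq
    · have hle : (gfam h hm c (Ind.of hc.indep)).degSub S + 1 ≤ 2 * a * Module.finrank F S := hlt
      have hleR : ((gfam h hm c (Ind.of hc.indep)).degSub S : ℝ) + 1 ≤
          2 * a * (Module.finrank F S : ℝ) := by exact_mod_cast hle
      have h1 : (((gfam h hm c (Ind.of hc.indep)).degSub S : ℝ) +
          α * (Module.finrank ℂ W : ℝ)) * n ≤ 2 * a * (Module.finrank F S : ℝ) * n :=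
        mul_le_mul_of_nonneg_right (by linarith) hnR.le
      push_cast
      linarith
    · obtain ⟨T, hT1, hT2⟩ := hd2 heq.ge
      have hTne : T ≠ ⊤ := by
        intro e
        rw [e, finrank_top, Module.finrank_fintype_fun_eq_card, Fintype.card_fin] at hT1
        omega
      have hW' : (W.comap L ⊓ Submodule.span ℂ (Set.range c)).map L = W := by
        apply le_antisymm
        · rintro _ ⟨u, hu, rfl⟩
          exact hu.1
        · intro w hw
          have hwV := hWV hw
          rw [hV] at hwV
          obtain ⟨u, hu, rfl⟩ := hwV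
          exact ⟨u, ⟨hw, hu⟩, rfl⟩
      have hb := hc.bnd T (W.comap L ⊓ Submodule.span ℂ (Set.range c)) hTne inf_le_right
        (fun u hu i => hT2 u (hWS hu.1) i)
      have hWr : Module.finrank ℂ W ≤ Module.finrank F S := by
        rw [← hW', ← (Submodule.equivMapOfInjective L hLi _).finrank_eq]
        exact hb.trans hT1
      have hWrR : (Module.finrank ℂ W : ℝ) ≤ Module.finrank F S := by exact_mod_cast hWr
      have heqR : ((gfam h hm c (Ind.of hc.indep)).degSub S : ℝ) =
          2 * a * (Module.finrank F S : ℝ) := by exact_mod_cast heq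
      rw [heqR]
      have h1 : α * (Module.finrank ℂ W : ℝ) * n ≤ α * (Module.finrank F S : ℝ) * n := by
        gcongr
      have h2 : α * (Module.finrank F S : ℝ) * n < α * (Module.finrank F S : ℝ) * k :=
        mul_lt_mul_of_pos_left hkR (by positivity)
      push_cast
      linarith

end Pool.Agent.CSG
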