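import Pool.Agent.CSG.Det
import Pool.Agent.CSG.Fam

/-!
# First order parts

Compare `Hhelper20/CS/Hyp8.lean` (rank two).  `Y` is a family with `Y.map ρ = gfam h hm c hc`.  `tN` is the first order part of the gluing matrix divided by `x ^ a`, `tP` its
part in the first chart, `tnu` the corrected first order part of the sections, `tK` its coefficients.

* `t_glue`: from `Y.glue`, as `Hyp.t_glue`.
* `tN_univ`: `Dl_mem`, `Hyp.x_pow_mem_U01`, `Hyp.toSubmodule_U01`.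
* `iso_of_mem_Rc`: as `Hyp.iso_of_tphi`.  If all `tN` are in `Sp (A0 ∪ A1 m 0)`, then `tP ∈ h.U`, `tP - tN ∈ h.swap.U`, `tnu ∈ Sp (A0 ∩ A1 m a)`, so `tnu b j = pol h a (tK j b)` (`mem_pol`, `co_pol`); if
  `tK = actL c A + actR c P`, then `iso_of_first_order` applies with `P0 = tP + A`, `P1 = tP - tN + A`, `p = P`.
-/

open TensorProduct

namespace Pool.Agent.CSG

open Pool.Agent.Hhelper20.CS

variable {F : Type} [Field F] [Algebra ℂ F] {m : ℕ} (h : Hyp F m) {k n a : ℕ} {hm : 0 < m}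
  {B : Type} [CommRing B] [Algebra ℂ B] (Y : CohSys (h.curve hm) B n k)

/-- First order part of the gluing matrix, divided by `x ^ a`. -/
noncomputable def tN (a : ℕ) (b b' : Fin n) : (B →ₗ[ℂ] ℂ) →ₗ[ℂ] F :=
  LinearMap.mulLeft ℂ (h.x ^ (a : ℤ))⁻¹ ∘ₗ DlF (Y.g.val b b')

/-- Its part on the first chart. -/
noncomputable def tP (a : ℕ) (b b' : Fin n) : (B →ₗ[ℂ] ℂ) →ₗ[ℂ] F :=
  pj h.lb_indep Hyp.A0 ∘ₗ tN h Y a b b'

/-- The corrected first order part of the sections. -/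
noncomputable def tnu (c : Co ℂ k n a) (b : Fin n) (j : Fin k) : (B →ₗ[ℂ] ℂ) →ₗ[ℂ] F :=
  DlF (Y.s0 b j) - ∑ b' : Fin n, LinearMap.mulRight ℂ (pol h a (c j b')) ∘ₗ tP h Y a b b'

/-- Its coefficients. -/
noncomputable def tK (c : Co ℂ k n a) : (B →ₗ[ℂ] ℂ) →ₗ[ℂ] Co ℂ k n a :=
  LinearMap.pi fun j => LinearMap.pi fun b => LinearMap.pi fun i =>
    Finsupp.lapply (Sum.inl ((i : ℕ) : ℤ)) ∘ₗ co h.lb_indep ∘ₗ tnu h Y c b j

theorem tK_apply (c : Co ℂ k n a) (l : B →ₗ[ℂ] ℂ) (j : Fin k) (b : Fin n) (i : Fin (a + 1)) :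
    tK h Y c l j b i = co h.lb_indep (tnu h Y c b j l) (Sum.inl ((i : ℕ) : ℤ)) := rfl

theorem tN_mul (b b' : Fin n) (l : B →ₗ[ℂ] ℂ) :
    Dl l (Y.g.val b b') = h.x ^ (a : ℤ) * tN h Y a b b' l := by
  have hx := zpow_ne_zero (a : ℤ) h.x_ne
  change _ = h.x ^ (a : ℤ) * ((h.x ^ (a : ℤ))⁻¹ * Dl l (Y.g.val b b'))
  rw [← mul_assoc, mul_inv_cancel₀ hx, one_mul]

theorem tN_univ (b b' : Fin n) (l : B →ₗ[ℂ] ℂ) : tN h Y a b b' l ∈ Sp h.lb Set.univ := by
  rw [← h.toSubmodule_U01 hm]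
  change (h.x ^ (a : ℤ))⁻¹ * Dl l (Y.g.val b b') ∈ (h.curve hm).U01
  rw [← zpow_neg]
  exact (h.curve hm).U01.mul_mem (h.x_pow_mem_U01 hm _) (Dl_mem l (Y.hg.1 b b'))

variable {c : Co ℂ k n a} {hc : Ind c} (ρ : B →ₐ[ℂ] ℂ) (hY : Y.map ρ = gfam h hm c hc)

include hY in
private theorem TanD_ev_g (b b' : Fin n) :
    ev ρ (Y.g.val b b') = if b = b' then h.x ^ (a : ℤ) else 0 := by
  rw [← ev_gsys_g h hm c hc, ← hY]
  change _ = ev (AlgHom.id ℂ ℂ) (bc ρ (Y.g.val b b'))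
  rw [ev_bc, AlgHom.id_comp]

include hY in
private theorem TanD_ev_s0 (b : Fin n) (j : Fin k) : ev ρ (Y.s0 b j) = pol h a (c j b) := by
  rw [← ev_gsys_s0 h hm c hc, ← hY]
  change _ = ev (AlgHom.id ℂ ℂ) (bc ρ (Y.s0 b j))
  rw [ev_bc, AlgHom.id_comp]

include hY in
private theorem TanD_ev_s1 (b : Fin n) (j : Fin k) : ev ρ (Y.s1 b j) = pol' h a (c j b) := by
  rw [← ev_gsys_s1 h hm c hc, ← hY]
  change _ = ev (AlgHom.id ℂ ℂ) (bc ρ (Y.s1 b j))
  rw [ev_bc, AlgHom.id_comp]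

include hY in
theorem t_glue {l : B →ₗ[ℂ] ℂ} (hl : IsTan ρ l) (b : Fin n) (j : Fin k) :
    Dl l (Y.s0 b j) = h.x ^ (a : ℤ) * Dl l (Y.s1 b j) +
      ∑ b', tN h Y a b b' l * pol h a (c j b') := by
  have h1 : Dl l (Y.s0 b j) = Dl l ((Y.g.val * Y.s1) b j) := by rw [← Y.glue]
  rw [h1, Matrix.mul_apply, map_sum]
  have h2 : ∀ b', Dl l (Y.g.val b b' * Y.s1 b' j) =
      (if b = b' then h.x ^ (a : ℤ) else 0) * Dl l (Y.s1 b' j) +
        tN h Y a b b' l * pol h a (c j b') := by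
    intro b'
    rw [Dl_mul hl, TanD_ev_g h Y ρ hY, TanD_ev_s1 h Y ρ hY, tN_mul (a := a), pol_eq]
    ring
  rw [Finset.sum_congr rfl fun b' _ => h2 b', Finset.sum_add_distrib]
  congr 1
  rw [Finset.sum_eq_single b]
  · rw [if_pos rfl]
  · intro b' _ hb
    rw [if_neg (Ne.symm hb), zero_mul]
  · intro hb
    exact absurd (Finset.mem_univ b) hb

private theorem TanD_tP_mem (b b' : Fin n) (l : B →ₗ[ℂ] ℂ) : tP h Y a b b' l ∈ h.U := by
  have : tP h Y a b b' l ∈ Subalgebra.toSubmodule h.U := by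
    rw [h.toSubmodule_U]
    exact pj_mem _ _ _
  exact this

private theorem TanD_tP_sub_mem (b b' : Fin n) {l : B →ₗ[ℂ] ℂ}
    (hN : tN h Y a b b' l ∈ Sp h.lb (Hyp.A0 ∪ Hyp.A1 m 0)) :
    tP h Y a b b' l - tN h Y a b b' l ∈ h.swap.U := by
  have : tP h Y a b b' l - tN h Y a b b' l ∈ Subalgebra.toSubmodule h.swap.U := by
    rw [h.toSubmodule_swap_U', ← neg_sub]
    refine Submodule.neg_mem _ ?_
    refine Sp_mono _ ?_ (sub_pj_mem h.lb_indep Hyp.A0 hN)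
    rintro i ⟨h1 | h1, h2⟩
    · exact absurd h1 h2
    · exact h1
  exact this

private theorem TanD_xa_mul_mem {u : F} (hu : u ∈ h.swap.U) :
    h.x ^ (a : ℤ) * u ∈ Sp h.lb (Hyp.A1 m a) := by
  rw [← h.toSubmodule_swap_U a]
  exact ⟨u, hu, rfl⟩

private theorem TanD_tnu_apply (c : Co ℂ k n a) (b : Fin n) (j : Fin k) (l : B →ₗ[ℂ] ℂ) :
    tnu h Y c b j l = Dl l (Y.s0 b j) - ∑ b', tP h Y a b b' l * pol h a (c j b') := by
  unfold tnu
  rw [LinearMap.sub_apply, LinearMap.sum_apply]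
  rfl

include hY in
private theorem TanD_tnu_mem {l : B →ₗ[ℂ] ℂ} (hl : IsTan ρ l)
    (hN : ∀ b b', tN h Y a b b' l ∈ Sp h.lb (Hyp.A0 ∪ Hyp.A1 m 0)) (b : Fin n) (j : Fin k) :
    tnu h Y c b j l ∈ Sp h.lb (Hyp.A0 ∩ Hyp.A1 m a) := by
  rw [Sp_inter h.lb_indep]
  refine ⟨?_, ?_⟩
  · rw [← h.toSubmodule_U, TanD_tnu_apply]
    exact h.U.sub_mem (Dl_mem l (Y.h0 b j)) (h.U.sum_mem fun b' _ =>
      h.U.mul_mem (TanD_tP_mem h Y b b' l) (pol_mem_U h _))
  · have h1 : tnu h Y c b j l = h.x ^ (a : ℤ) * (Dl l (Y.s1 b j) -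
        ∑ b', (tP h Y a b b' l - tN h Y a b b' l) * pol' h a (c j b')) := by
      rw [TanD_tnu_apply, t_glue h Y ρ hY hl, mul_sub, Finset.mul_sum]
      have h2 : ∀ b', h.x ^ (a : ℤ) * ((tP h Y a b b' l - tN h Y a b b' l) * pol' h a (c j b')) =
          tP h Y a b b' l * pol h a (c j b') - tN h Y a b b' l * pol h a (c j b') := by
        intro b'
        rw [pol_eq]
        ring
      rw [Finset.sum_congr rfl fun b' _ => h2 b', Finset.sum_sub_distrib]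
      ring
    rw [h1]
    exact TanD_xa_mul_mem h (h.swap.U.sub_mem (Dl_mem l (Y.h1 b j)) (h.swap.U.sum_mem fun b' _ =>
      h.swap.U.mul_mem (TanD_tP_sub_mem h Y b b' (hN b b')) (pol'_mem_U h _)))

include hY in
private theorem TanD_tnu_eq (ham : a < m) {l : B →ₗ[ℂ] ℂ} (hl : IsTan ρ l)
    (hN : ∀ b b', tN h Y a b b' l ∈ Sp h.lb (Hyp.A0 ∪ Hyp.A1 m 0)) (b : Fin n) (j : Fin k) :
    tnu h Y c b j l = pol h a (tK h Y c l j b) := by
  obtain ⟨z, hz⟩ := (mem_pol h ham).1 (TanD_tnu_mem h Y ρ hY hl hN b j)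
  have h1 : tK h Y c l j b = z := by
    funext i
    rw [tK_apply, ← hz, co_pol]
  rw [h1, hz]

include hY in
theorem iso_of_mem_Rc (ham : a < m) {l : B →ₗ[ℂ] ℂ} (hl : IsTan ρ l)
    (hN : ∀ b b', tN h Y a b b' l ∈ Sp h.lb (Hyp.A0 ∪ Hyp.A1 m 0)) (hK : tK h Y c l ∈ Rc c)
    (D : Type) [CommRing D] [Algebra ℂ D] (e : D) (he : e * e = 0) :
    CohSys.Iso (Y.map (tanHom D e he ρ 0 (IsTan.zero ρ))) (Y.map (tanHom D e he ρ l hl)) := by
  obtain ⟨A, P, hAP⟩ := mem_Rc.1 hK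
  have hpol : ∀ (b : Fin n) (j : Fin k), pol h a (tK h Y c l j b) =
      ∑ b', algebraMap ℂ F (A b b') * pol h a (c j b') +
        ∑ j', pol h a (c j' b) * algebraMap ℂ F (P j' j) := by
    intro b j
    have h1 : tK h Y c l j b = (∑ b', A b b' • c j b') + ∑ j', P j' j • c j' b := by
      rw [hAP]
      funext i
      simp only [Pi.add_apply, Finset.sum_apply, Pi.smul_apply, smul_eq_mul]
      change (∑ b', A b b' * c j b' i) + (∑ j', c j' b i * P j' j) = _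
      congr 1
      exact Finset.sum_congr rfl fun _ _ => mul_comm _ _
    rw [h1, map_add, map_sum, map_sum]
    congr 1
    · exact Finset.sum_congr rfl fun b' _ => by rw [map_smul, Algebra.smul_def]
    · exact Finset.sum_congr rfl fun j' _ => by rw [map_smul, Algebra.smul_def, mul_comm]
  have T0 : ∀ (b : Fin n) (j : Fin k), Dl l (Y.s0 b j) =
      ∑ b', (tP h Y a b b' l + algebraMap ℂ F (A b b')) * pol h a (c j b') +
        ∑ j', pol h a (c j' b) * algebraMap ℂ F (P j' j) := by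
    intro b j
    have h1 := TanD_tnu_eq h Y ρ hY ham hl hN b j
    rw [TanD_tnu_apply, hpol b j] at h1
    simp only [add_mul, Finset.sum_add_distrib]
    linear_combination h1
  refine CohSys.iso_of_first_order D e he Y ρ l hl
    (Matrix.of fun b b' => tP h Y a b b' l + algebraMap ℂ F (A b b'))
    (Matrix.of fun b b' => tP h Y a b b' l - tN h Y a b b' l + algebraMap ℂ F (A b b'))
    (fun b b' => h.U.add_mem (TanD_tP_mem h Y b b' l) (h.U.algebraMap_mem _))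
    (fun b b' => h.swap.U.add_mem (TanD_tP_sub_mem h Y b b' (hN b b')) (h.swap.U.algebraMap_mem _))
    P ?_ ?_ ?_
  · ext b b'
    have hgm : Y.g.val.map (ev ρ) = Matrix.diagonal fun _ => h.x ^ (a : ℤ) := by
      ext i i'
      rw [Matrix.map_apply, TanD_ev_g h Y ρ hY, Matrix.diagonal_apply]
    rw [hgm, Matrix.add_apply, Matrix.diagonal_mul, Matrix.mul_diagonal, Matrix.map_apply,
      Matrix.of_apply, Matrix.of_apply, tN_mul (a := a)]
    ring
  · ext b j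
    simp only [Matrix.add_apply, Matrix.map_apply, Matrix.mul_apply,
      TanD_ev_s0 h Y ρ hY, Matrix.of_apply]
    exact T0 b j
  · ext b j
    simp only [Matrix.add_apply, Matrix.map_apply, Matrix.mul_apply,
      TanD_ev_s1 h Y ρ hY, Matrix.of_apply]
    have hx : h.x ^ (a : ℤ) ≠ 0 := zpow_ne_zero _ h.x_ne
    apply mul_left_cancel₀ hx
    have e1 := T0 b j
    have e2 := t_glue h Y ρ hY hl b j
    have e3 : h.x ^ (a : ℤ) * ∑ j', pol' h a (c j' b) * algebraMap ℂ F (P j' j) =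
        ∑ j', pol h a (c j' b) * algebraMap ℂ F (P j' j) := by
      rw [Finset.mul_sum]
      refine Finset.sum_congr rfl fun j' _ => ?_
      rw [pol_eq, mul_assoc]
    have e4 : h.x ^ (a : ℤ) * ∑ b', (tP h Y a b b' l - tN h Y a b b' l + algebraMap ℂ F (A b b')) *
        pol' h a (c j b') = ∑ b', (tP h Y a b b' l + algebraMap ℂ F (A b b')) * pol h a (c j b') -
          ∑ b', tN h Y a b b' l * pol h a (c j b') := by
      rw [Finset.mul_sum, ← Finset.sum_sub_distrib]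
      refine Finset.sum_congr rfl fun b' _ => ?_
      rw [pol_eq]
      ring
    rw [mul_add, e3, e4]
    linear_combination e1 - e2

end Pool.Agent.CSG
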